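import Pool.Agent.Helper94.SQ.Small
import Pool.Agent.Helper94.SQ.Pars

/-!
Few palindromes are divisible by the square of a number `≥ W`.
-/

set_option autoImplicit false

namespace Pool.Agent.Helper94.SR

open Finset Filter Topology Pool.Agent.Helper94.SQ

theorem sq_sum_le (W Z : ℕ) (hW : 1 ≤ W) : ∑ d ∈ Ico W Z, ((d : ℝ) ^ 2)⁻¹ ≤ 2 / W := by
  have h := sum_Ioo_inv_sq_le (α := ℝ) (W - 1) Z
  have e1 : Ioo (W - 1) Z = Ico W Z := by
    ext d; rw [mem_Ioo, mem_Ico]; omega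
  rw [e1] at h
  refine h.trans (le_of_eq ?_)
  rw [Nat.cast_sub hW]
  simp

/-- the good palindromes with a large square divisor -/
noncomputable def bad (W N : ℕ) : Finset ℕ := by
  classical exact (pal N).filter (fun n => good n ∧ ∃ d, W ≤ d ∧ d ^ 2 ∣ n)

theorem big (W : ℕ) (hW : 1 ≤ W) : ∀ᶠ N : ℕ in atTop,
    ((bad W N).card : ℝ) ≤ 20 * 10 ^ N / W := by
  classical
  have ht : Tendsto (fun L : ℕ => L / 4) atTop atTop := Nat.tendsto_div_const_atTop (by norm_num)
  filter_upwards [tail pars 1, small_d 1, eventually_ge_atTop (4 * W + 100), ht.eventually_ge_atTop W]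
    with N h1 h2 hN hN4
  set z := 10 ^ (N / 4) with hz
  have hWz : W ≤ z := by
    refine hN4.trans ?_
    exact (Nat.lt_pow_self (by norm_num)).le
  have hzY : z ≤ 10 ^ (N + 1) := Nat.pow_le_pow_right (by norm_num) (by omega)
  have hsub : bad W N ⊆ (Ico W (10 ^ (N + 1))).biUnion
      (fun d => (pal N).filter (fun n => good n ∧ d ^ 2 ∣ n)) := by
    intro n hn
    rw [bad, mem_filter] at hn
    obtain ⟨hn1, hg, d, hd, hdn⟩ := hn
    rw [mem_biUnion]
    refine ⟨d, ?_, by rw [mem_filter]; exact ⟨hn1, hg, hdn⟩⟩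
    rw [mem_Ico]
    refine ⟨hd, ?_⟩
    by_contra hcon
    push Not at hcon
    have := G_zero' (L := N) hcon
    rw [G, card_eq_zero, filter_eq_empty_iff] at this
    exact this hn1 ⟨hg, hdn⟩
  have hcard : ((bad W N).card : ℝ) ≤ ∑ d ∈ Ico W (10 ^ (N + 1)), (G N d : ℝ) := by
    have := (card_le_card hsub).trans card_biUnion_le
    exact_mod_cast this
  refine hcard.trans ?_
  rw [← sum_Ico_consecutive _ hWz hzY]
  have hNR : (100 : ℝ) + 4 * W ≤ N := by exact_mod_cast (by omega : 100 + 4 * W ≤ N)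
  have hWR : (1 : ℝ) ≤ W := by exact_mod_cast hW
  have e1 : ∑ d ∈ Ico W z, (G N d : ℝ) ≤ 10 ^ N / N + 14 * 10 ^ N / W := by
    have e2 : ∑ d ∈ Ico W z, (G N d : ℝ) = ∑ d ∈ (Ico W z).filter (fun d => d.Coprime 10), (G N d : ℝ) := by
      rw [sum_filter]
      refine sum_congr rfl fun d _ => ?_
      split_ifs with h
      · rfl
      · rw [G_zero h, Nat.cast_zero]
    rw [e2]
    have e3 : ∑ d ∈ (Ico W z).filter (fun d => d.Coprime 10), (G N d : ℝ) ≤
        ∑ d ∈ (Ico W z).filter (fun d => d.Coprime 10), |(G N d : ℝ) - 68 * 10 ^ (N - 1) / (d : ℝ) ^ 2| +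
        ∑ d ∈ (Ico W z).filter (fun d => d.Coprime 10), 68 * 10 ^ (N - 1) / (d : ℝ) ^ 2 := by
      rw [← sum_add_distrib]
      refine sum_le_sum fun d _ => ?_
      have := le_abs_self ((G N d : ℝ) - 68 * 10 ^ (N - 1) / (d : ℝ) ^ 2)
      linarith
    refine e3.trans (add_le_add ?_ ?_)
    · rw [pow_one] at h2
      refine le_trans (sum_le_sum_of_subset_of_nonneg ?_ fun _ _ _ => abs_nonneg _) h2
      apply filter_subset_filter
      intro d hd
      rw [mem_Ico] at hd ⊢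
      exact ⟨by omega, hd.2⟩
    · have e4 : ∑ d ∈ (Ico W z).filter (fun d => d.Coprime 10), (68 * 10 ^ (N - 1) / (d : ℝ) ^ 2) ≤
          ∑ d ∈ Ico W z, (68 * 10 ^ (N - 1) / (d : ℝ) ^ 2) :=
        sum_le_sum_of_subset_of_nonneg (filter_subset _ _) fun _ _ _ => by positivity
      refine e4.trans ?_
      have e5 : ∑ d ∈ Ico W z, (68 * 10 ^ (N - 1) / (d : ℝ) ^ 2 : ℝ) =
          68 * 10 ^ (N - 1) * ∑ d ∈ Ico W z, ((d : ℝ) ^ 2)⁻¹ := by
        rw [mul_sum]
        refine sum_congr rfl fun d _ => ?_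
        rw [div_eq_mul_inv]
      rw [e5]
      have e6 : (10 : ℝ) ^ N = 10 * 10 ^ (N - 1) := by
        rw [← pow_succ']; congr 1; omega
      calc 68 * 10 ^ (N - 1) * ∑ d ∈ Ico W z, ((d : ℝ) ^ 2)⁻¹ ≤ 68 * 10 ^ (N - 1) * (2 / W) :=
            mul_le_mul_of_nonneg_left (sq_sum_le W z hW) (by positivity)
        _ ≤ 14 * 10 ^ N / W := by
            rw [e6, mul_div_assoc', div_le_div_iff_of_pos_right (by linarith)]
            have : (0 : ℝ) < 10 ^ (N - 1) := by positivity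
            linarith
  rw [pow_one] at h1
  have e7 : (10 : ℝ) ^ N / N ≤ 10 ^ N / W := by
    apply div_le_div_of_nonneg_left (by positivity) (by linarith) (by linarith)
  calc ∑ d ∈ Ico W z, (G N d : ℝ) + ∑ d ∈ Ico z (10 ^ (N + 1)), (G N d : ℝ)
      ≤ (10 ^ N / N + 14 * 10 ^ N / W) + 10 ^ N / N := add_le_add e1 h1
    _ ≤ (10 ^ N / W + 14 * 10 ^ N / W) + 10 ^ N / W := by linarith
    _ ≤ 20 * 10 ^ N / W := by
        have e8 : (10 : ℝ) ^ N / W + 14 * 10 ^ N / W + 10 ^ N / W = 16 * 10 ^ N / W := by ring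
        rw [e8, div_le_div_iff_of_pos_right (by linarith)]
        have : (0 : ℝ) < 10 ^ N := by positivity
        linarith

end Pool.Agent.Helper94.SR
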