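import Mathlib

/-!
Counting residues that avoid given classes modulo the squares of primes.
-/

set_option autoImplicit false

namespace Pool.Agent.Helper94.SR

open Finset

theorem crt_card {M N : ℕ} (h : M.Coprime N) (hM : 0 < M) (hN : 0 < N) (P R : ℕ → Prop)
    [DecidablePred P] [DecidablePred R] :
    ((range (M * N)).filter (fun x => P (x % M) ∧ R (x % N))).card =
      ((range M).filter P).card * ((range N).filter R).card := by
  rw [← card_product]
  refine card_bij (fun x _ => (x % M, x % N)) ?_ ?_ ?_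
  · intro x hx
    rw [mem_filter] at hx
    rw [mem_product, mem_filter, mem_filter, mem_range, mem_range]
    exact ⟨⟨Nat.mod_lt _ hM, hx.2.1⟩, ⟨Nat.mod_lt _ hN, hx.2.2⟩⟩
  · intro x hx y hy hxy
    rw [mem_filter, mem_range] at hx hy
    rw [Prod.mk.injEq] at hxy
    exact Nat.ModEq.eq_of_lt_of_lt ((Nat.modEq_and_modEq_iff_modEq_mul h).1 ⟨hxy.1, hxy.2⟩) hx.1 hy.1
  · rintro ⟨a, b⟩ hab
    rw [mem_product, mem_filter, mem_filter, mem_range, mem_range] at hab
    simp only at hab
    obtain ⟨⟨ha, hPa⟩, ⟨hb, hRb⟩⟩ := hab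
    have hk := (Nat.chineseRemainder h a b).2
    have hk1 : (Nat.chineseRemainder h a b : ℕ) % M = a := by
      have := hk.1
      rw [Nat.ModEq, Nat.mod_eq_of_lt ha] at this
      exact this
    have hk2 : (Nat.chineseRemainder h a b : ℕ) % N = b := by
      have := hk.2
      rw [Nat.ModEq, Nat.mod_eq_of_lt hb] at this
      exact this
    refine ⟨Nat.chineseRemainder h a b, ?_, ?_⟩
    · rw [mem_filter, mem_range, hk1, hk2]
      exact ⟨Nat.chineseRemainder_lt_mul h a b (by omega) (by omega), hPa, hRb⟩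
    · rw [hk1, hk2]

variable {k : ℕ}

/-- the number of the residues modulo `q` of the numbers `A i` -/
def nuA (A : Fin k → ℕ) (q : ℕ) : ℕ := ((univ : Finset (Fin k)).image (fun i => A i % q)).card

theorem nuA_le (A : Fin k → ℕ) (q : ℕ) : nuA A q ≤ k := by
  unfold nuA
  refine card_image_le.trans ?_
  rw [card_univ, Fintype.card_fin]

theorem nuA_le' (A : Fin k → ℕ) {q : ℕ} (hq : 0 < q) : nuA A q ≤ q := by
  unfold nuA
  calc ((univ : Finset (Fin k)).image (fun i => A i % q)).card ≤ (range q).card := by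
        apply card_le_card
        intro x hx
        rw [mem_image] at hx
        obtain ⟨i, -, rfl⟩ := hx
        rw [mem_range]
        exact Nat.mod_lt _ hq
    _ = q := card_range q

theorem one_mod (A : Fin k → ℕ) {q : ℕ} (hq : 0 < q) :
    ((range q).filter (fun t => ∀ i, ¬ q ∣ t + A i)).card = q - nuA A q := by
  classical
  have h1 : ((range q).filter (fun t => ¬ ∀ i, ¬ q ∣ t + A i)).card = nuA A q := by
    unfold nuA
    symm
    refine card_bij (fun r _ => (q - r) % q) ?_ ?_ ?_
    · intro r hr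
      rw [mem_image] at hr
      obtain ⟨i, -, rfl⟩ := hr
      rw [mem_filter, mem_range]
      refine ⟨Nat.mod_lt _ hq, fun h => h i ?_⟩
      have h2 : A i % q < q := Nat.mod_lt _ hq
      rw [← Nat.modEq_zero_iff_dvd]
      calc (q - A i % q) % q + A i ≡ (q - A i % q) + A i % q [MOD q] :=
            Nat.ModEq.add (Nat.mod_modEq _ _) (Nat.mod_modEq _ _).symm
        _ = q := by omega
        _ ≡ 0 [MOD q] := Nat.modEq_zero_iff_dvd.2 dvd_rfl
    · intro r hr r' hr' h
      have h2 : r < q := by
        rw [mem_image] at hr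
        obtain ⟨i, -, rfl⟩ := hr
        exact Nat.mod_lt _ hq
      have h3 : r' < q := by
        rw [mem_image] at hr'
        obtain ⟨i, -, rfl⟩ := hr'
        exact Nat.mod_lt _ hq
      have h' : (q - r) % q = (q - r') % q := h
      rcases Nat.eq_zero_or_pos r with h4 | h4
      · rcases Nat.eq_zero_or_pos r' with h5 | h5
        · rw [h4, h5]
        · rw [h4, Nat.sub_zero, Nat.mod_self, Nat.mod_eq_of_lt (show q - r' < q by omega)] at h'
          omega
      · rcases Nat.eq_zero_or_pos r' with h5 | h5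
        · rw [h5, Nat.sub_zero, Nat.mod_self, Nat.mod_eq_of_lt (show q - r < q by omega)] at h'
          omega
        · rw [Nat.mod_eq_of_lt (show q - r < q by omega), Nat.mod_eq_of_lt (show q - r' < q by omega)] at h'
          omega
    · intro t ht
      rw [mem_filter, mem_range] at ht
      obtain ⟨ht1, ht2⟩ := ht
      push Not at ht2
      obtain ⟨i, hi⟩ := ht2
      refine ⟨A i % q, mem_image.2 ⟨i, mem_univ _, rfl⟩, ?_⟩
      have h2 : A i % q < q := Nat.mod_lt _ hq
      have h3 : (t + A i % q) % q = 0 := by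
        rw [Nat.add_mod, Nat.mod_mod, ← Nat.add_mod]
        exact Nat.mod_eq_zero_of_dvd hi
      rcases Nat.eq_zero_or_pos (A i % q) with h4 | h4
      · rw [h4, Nat.sub_zero, Nat.mod_self]
        rw [h4, add_zero, Nat.mod_eq_of_lt ht1] at h3
        exact h3.symm
      · rw [Nat.mod_eq_of_lt (by omega)]
        have h5 : t + A i % q < 2 * q := by omega
        have h6 : q ∣ t + A i % q := Nat.dvd_of_mod_eq_zero h3
        obtain ⟨c, hc⟩ := h6
        have h7 : c = 1 := by
          have h8 : 0 < c := by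
            rcases Nat.eq_zero_or_pos c with h9 | h9
            · rw [h9] at hc; omega
            · exact h9
          have h9 : c < 2 := by
            by_contra h10
            push Not at h10
            have : q * 2 ≤ q * c := Nat.mul_le_mul_left _ h10
            omega
          omega
        rw [h7] at hc
        omega
  have h2 := card_filter_add_card_filter_not (s := range q) (fun t => ∀ i, ¬ q ∣ t + A i)
  rw [h1, card_range] at h2
  omega

/-- the modulus -/
def QP (S : Finset ℕ) : ℕ := ∏ p ∈ S, p ^ 2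

theorem QP_pos {S : Finset ℕ} (hS : ∀ p ∈ S, p.Prime) : 0 < QP S :=
  prod_pos fun p hp => pow_pos (hS p hp).pos 2

theorem QP_coprime {S : Finset ℕ} {n : ℕ} (h : ∀ p ∈ S, p.Coprime n) : (QP S).Coprime n :=
  Nat.Coprime.prod_left fun p hp => (h p hp).pow_left 2

theorem dvd_QP {S : Finset ℕ} {p : ℕ} (hp : p ∈ S) : p ^ 2 ∣ QP S := dvd_prod_of_mem _ hp

/-- the good residues -/
def gr (A : Fin k → ℕ) (S : Finset ℕ) : Finset ℕ :=
  (range (QP S)).filter (fun x => ∀ p ∈ S, ∀ i, ¬ p ^ 2 ∣ x + A i)

theorem dvd_mod_add {q M x a : ℕ} (h : q ∣ M) : q ∣ x % M + a ↔ q ∣ x + a := by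
  have h1 : x % M ≡ x [MOD q] := (Nat.mod_modEq x M).of_dvd h
  rw [← Nat.modEq_zero_iff_dvd, ← Nat.modEq_zero_iff_dvd]
  constructor
  · intro h2
    exact (h1.symm.add_right a).trans h2
  · intro h2
    exact (h1.add_right a).trans h2

theorem gr_card (A : Fin k → ℕ) (S : Finset ℕ) (hS : ∀ p ∈ S, p.Prime) :
    (gr A S).card = ∏ p ∈ S, (p ^ 2 - nuA A (p ^ 2)) := by
  classical
  induction S using Finset.induction_on with
  | empty =>
    unfold gr QP
    simp
  | insert q S hq ih =>
    have hS' : ∀ p ∈ S, p.Prime := fun p hp => hS p (mem_insert_of_mem hp)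
    have hqp : q.Prime := hS q (mem_insert_self _ _)
    rw [prod_insert hq, ← ih hS', ← one_mod A (pow_pos hqp.pos 2), mul_comm]
    have hcop : (QP S).Coprime (q ^ 2) := by
      refine QP_coprime fun p hp => Nat.Coprime.pow_right 2 ?_
      rw [Nat.coprime_primes (hS' p hp) hqp]
      rintro rfl
      exact hq hp
    have h1 := crt_card hcop (QP_pos hS') (pow_pos hqp.pos 2) (fun x => ∀ p ∈ S, ∀ i, ¬ p ^ 2 ∣ x + A i)
      (fun t => ∀ i, ¬ q ^ 2 ∣ t + A i)
    unfold gr
    rw [← h1]
    have e1 : QP (insert q S) = QP S * q ^ 2 := by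
      unfold QP
      rw [prod_insert hq, mul_comm]
    rw [e1]
    congr 1
    apply filter_congr
    intro x _
    constructor
    · intro h
      refine ⟨fun p hp i h2 => h p (mem_insert_of_mem hp) i ((dvd_mod_add (dvd_QP hp)).1 h2), fun i h2 => ?_⟩
      exact h q (mem_insert_self _ _) i ((dvd_mod_add dvd_rfl).1 h2)
    · rintro ⟨h2, h3⟩ p hp i h4
      rcases mem_insert.1 hp with rfl | hp'
      · exact h3 i ((dvd_mod_add dvd_rfl).2 h4)
      · exact h2 p hp' i ((dvd_mod_add (dvd_QP hp')).2 h4)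

theorem gr_density (A : Fin k → ℕ) (S : Finset ℕ) (hS : ∀ p ∈ S, p.Prime) :
    ((gr A S).card : ℝ) = (QP S : ℝ) * ∏ p ∈ S, (1 - (nuA A (p ^ 2) : ℝ) / (p : ℝ) ^ 2) := by
  rw [gr_card A S hS, QP, Nat.cast_prod, Nat.cast_prod, ← prod_mul_distrib]
  refine prod_congr rfl fun p hp => ?_
  have hp0 : (0 : ℝ) < (p : ℝ) := by exact_mod_cast (hS p hp).pos
  rw [Nat.cast_sub (nuA_le' A (pow_pos (hS p hp).pos 2))]
  push_cast
  field_simp

end Pool.Agent.Helper94.SR
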