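import Pool.Agent.Helper94.SR.Palin
import Pool.Agent.Helper94.SR.Crt

/-!
The number of the digit strings for which several palindromes are squarefree.
-/

set_option autoImplicit false

namespace Pool.Agent.Helper94.SR

open Finset Filter Topology Pool.Agent.Helper94.SQ

/-- the primes up to `y` other than `2` and `5` -/
def PS (y : ℕ) : Finset ℕ := (Icc 1 y).filter (fun p => p.Prime ∧ p ≠ 2 ∧ p ≠ 5)

theorem PS_prime {y p : ℕ} (hp : p ∈ PS y) : p.Prime := (mem_filter.1 hp).2.1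

theorem PS_coprime {y p : ℕ} (hp : p ∈ PS y) : p.Coprime 10 := by
  obtain ⟨-, h1, h2, h5⟩ := mem_filter.1 hp
  have e : 10 = 2 * 5 := by norm_num
  rw [e]
  exact Nat.Coprime.mul_right ((Nat.coprime_primes h1 (by norm_num)).2 h2)
    ((Nat.coprime_primes h1 (by norm_num)).2 h5)

/-- the base points -/
def bs {k : ℕ} (w m : Fin k → List ℕ) (L : ℕ) : Fin k → ℕ := fun i => palin (w i) (m i) (fun _ : Fin L => (0 : Fin 10))

/-- the product of the local densities -/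
noncomputable def V {k : ℕ} (w m : Fin k → List ℕ) (L y : ℕ) : ℝ :=
  ∏ p ∈ PS y, (1 - (nuA (bs w m L) (p ^ 2) : ℝ) / (p : ℝ) ^ 2)

theorem small_count (y : ℕ) {ε : ℝ} (hε : 0 < ε) : ∃ L₀ : ℕ, ∀ L : ℕ, L₀ ≤ L → ∀ k r s : ℕ,
    ∀ w m : Fin k → List ℕ, (∀ i, (w i).length = r) → (∀ i, (m i).length = 2 * s + 1) →
    |(((univ : Finset (Fin L → Fin 10)).filter (fun u => ∀ p ∈ PS y, ∀ i, ¬ p ^ 2 ∣ palin (w i) (m i) u)).card : ℝ) -
      10 ^ L * V w m L y| ≤ ε * 10 ^ L := by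
  classical
  have hQ0 : 0 < QP (PS y) := QP_pos fun p hp => PS_prime hp
  have : NeZero (QP (PS y)) := ⟨hQ0.ne'⟩
  have hQ : (QP (PS y)).Coprime 10 := QP_coprime fun p hp => PS_coprime hp
  obtain ⟨L₀, hL₀⟩ := equi (QP (PS y)) hQ hε
  refine ⟨L₀, fun L hL k r s w m hw hm => ?_⟩
  set Q := QP (PS y) with hQdef
  have h1 : ∀ (u : Fin L → Fin 10) i, palin (w i) (m i) u = bs w m L i + Mu r L (2 * s + 1) u := by
    intro u i
    rw [palin_val (w i) (m i) u (by rw [hm]; omega), hw, hm]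
    rfl
  have h2 : ((univ : Finset (Fin L → Fin 10)).filter (fun u => ∀ p ∈ PS y, ∀ i, ¬ p ^ 2 ∣ palin (w i) (m i) u)).card =
      ∑ x ∈ gr (bs w m L) (PS y), cnt L (lam Q r (L + s)) (x : ZMod Q) := by
    have hmap : ∀ u ∈ (univ : Finset (Fin L → Fin 10)).filter (fun u => ∀ p ∈ PS y, ∀ i, ¬ p ^ 2 ∣ palin (w i) (m i) u),
        Mu r L (2 * s + 1) u % Q ∈ gr (bs w m L) (PS y) := by
      intro u hu
      rw [mem_filter] at hu
      unfold gr
      rw [mem_filter, mem_range]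
      refine ⟨Nat.mod_lt _ hQ0, fun p hp i h3 => hu.2 p hp i ?_⟩
      rw [h1, add_comm]
      exact (dvd_mod_add (dvd_QP hp)).1 h3
    rw [card_eq_sum_card_fiberwise hmap]
    refine sum_congr rfl fun x hx => ?_
    unfold gr at hx
    rw [mem_filter, mem_range] at hx
    unfold cnt
    congr 1
    ext u
    rw [mem_filter, mem_filter, mem_filter]
    have h3 : Mu r L (2 * s + 1) u % Q = x ↔ ∑ j : Fin L, ((u j : ℕ) : ZMod Q) * lam Q r (L + s) j = (x : ZMod Q) := by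
      rw [← Mu_cast hQ, ZMod.natCast_eq_natCast_iff', Nat.mod_eq_of_lt hx.1]
    constructor
    · rintro ⟨-, h4⟩
      exact ⟨mem_univ _, h3.1 h4⟩
    · rintro ⟨-, h4⟩
      have h5 := h3.2 h4
      refine ⟨⟨mem_univ _, fun p hp i h6 => hx.2 p hp i ?_⟩, h5⟩
      rw [h1, add_comm] at h6
      rw [← h5]
      exact (dvd_mod_add (dvd_QP hp)).2 h6
  have hQR : (0 : ℝ) < Q := by exact_mod_cast hQ0
  have h3 : (10 : ℝ) ^ L * V w m L y = ∑ x ∈ gr (bs w m L) (PS y), (10 : ℝ) ^ L / Q := by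
    rw [sum_const, nsmul_eq_mul, gr_density _ _ fun p hp => PS_prime hp, ← hQdef]
    unfold V
    field_simp
  rw [h2, h3, Nat.cast_sum, ← sum_sub_distrib]
  refine (abs_sum_le_sum_abs _ _).trans ?_
  have h4 : ∀ x ∈ gr (bs w m L) (PS y), |(cnt L (lam Q r (L + s)) (x : ZMod Q) : ℝ) - 10 ^ L / Q| ≤ ε * 10 ^ L / Q := by
    intro x _
    have := hL₀ L hL r (L + s) (x : ZMod Q)
    have e : (cnt L (lam Q r (L + s)) (x : ZMod Q) : ℝ) - 10 ^ L / Q =
        ((Q : ℝ) * (cnt L (lam Q r (L + s)) (x : ZMod Q) : ℝ) - 10 ^ L) / Q := by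
      field_simp
    rw [e, abs_div, abs_of_pos hQR]
    exact div_le_div_of_nonneg_right this hQR.le
  refine (sum_le_sum h4).trans ?_
  rw [sum_const, nsmul_eq_mul]
  have h5 : ((gr (bs w m L) (PS y)).card : ℝ) ≤ Q := by
    have : (gr (bs w m L) (PS y)).card ≤ Q := by
      unfold gr
      refine (card_filter_le _ _).trans ?_
      rw [card_range]
    exact_mod_cast this
  calc ((gr (bs w m L) (PS y)).card : ℝ) * (ε * 10 ^ L / Q) ≤ Q * (ε * 10 ^ L / Q) :=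
        mul_le_mul_of_nonneg_right h5 (by positivity)
    _ = ε * 10 ^ L := by field_simp

theorem fac_mem {k : ℕ} (w m : Fin k → List ℕ) (L : ℕ) {p : ℕ} (hp : 0 < p) :
    0 ≤ 1 - (nuA (bs w m L) (p ^ 2) : ℝ) / (p : ℝ) ^ 2 ∧ 1 - (nuA (bs w m L) (p ^ 2) : ℝ) / (p : ℝ) ^ 2 ≤ 1 ∧
      1 - (k : ℝ) / (p : ℝ) ^ 2 ≤ 1 - (nuA (bs w m L) (p ^ 2) : ℝ) / (p : ℝ) ^ 2 := by
  have hp0 : (0 : ℝ) < (p : ℝ) ^ 2 := by positivity
  have h1 : (nuA (bs w m L) (p ^ 2) : ℝ) ≤ (p : ℝ) ^ 2 := by exact_mod_cast nuA_le' (bs w m L) (pow_pos hp 2)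
  have h2 : (nuA (bs w m L) (p ^ 2) : ℝ) ≤ k := by exact_mod_cast nuA_le (bs w m L) (p ^ 2)
  refine ⟨?_, ?_, ?_⟩
  · rw [sub_nonneg, div_le_one hp0]; exact h1
  · have : 0 ≤ (nuA (bs w m L) (p ^ 2) : ℝ) / (p : ℝ) ^ 2 := by positivity
    linarith
  · have := div_le_div_of_nonneg_right h2 hp0.le
    linarith

theorem V_nonneg {k : ℕ} (w m : Fin k → List ℕ) (L y : ℕ) : 0 ≤ V w m L y :=
  prod_nonneg fun p hp => (fac_mem w m L (PS_prime hp).pos).1

theorem V_le_one {k : ℕ} (w m : Fin k → List ℕ) (L y : ℕ) : V w m L y ≤ 1 :=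
  prod_le_one (fun p hp => (fac_mem w m L (PS_prime hp).pos).1) fun p hp => (fac_mem w m L (PS_prime hp).pos).2.1

/-- a product of numbers in `[0, 1]` -/
theorem one_sub_sum_le {ι : Type*} (S : Finset ι) (f g : ι → ℝ) (h0 : ∀ i ∈ S, 0 ≤ f i) (h1 : ∀ i ∈ S, f i ≤ 1)
    (h : ∀ i ∈ S, 1 - g i ≤ f i) : 1 - ∑ i ∈ S, g i ≤ ∏ i ∈ S, f i := by
  classical
  induction S using Finset.induction_on with
  | empty => simp
  | insert a S ha ih =>
    rw [sum_insert ha, prod_insert ha]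
    have i1 := ih (fun i hi => h0 i (mem_insert_of_mem hi)) (fun i hi => h1 i (mem_insert_of_mem hi))
      (fun i hi => h i (mem_insert_of_mem hi))
    have i2 := h a (mem_insert_self _ _)
    have i3 := h0 a (mem_insert_self _ _)
    have i4 := h1 a (mem_insert_self _ _)
    have i5 : ∏ i ∈ S, f i ≤ 1 := prod_le_one (fun i hi => h0 i (mem_insert_of_mem hi)) fun i hi => h1 i (mem_insert_of_mem hi)
    nlinarith

theorem V_split {k : ℕ} (w m : Fin k → List ℕ) (L : ℕ) {y z : ℕ} (h : y ≤ z) :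
    (1 - k * (2 / ((y : ℝ) + 1))) * V w m L y ≤ V w m L z ∧ V w m L z ≤ V w m L y := by
  classical
  have hsub : PS y ⊆ PS z := by
    intro p hp
    rw [PS, mem_filter, mem_Icc] at hp ⊢
    exact ⟨⟨hp.1.1, hp.1.2.trans h⟩, hp.2⟩
  have e1 : V w m L z = (∏ p ∈ PS z \ PS y, (1 - (nuA (bs w m L) (p ^ 2) : ℝ) / (p : ℝ) ^ 2)) * V w m L y := by
    unfold V
    rw [prod_sdiff hsub]
  have hpos : ∀ p ∈ PS z \ PS y, 0 < p := fun p hp => (PS_prime (Finset.mem_sdiff.1 hp).1).pos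
  have e2 : ∏ p ∈ PS z \ PS y, (1 - (nuA (bs w m L) (p ^ 2) : ℝ) / (p : ℝ) ^ 2) ≤ 1 :=
    prod_le_one (fun p hp => (fac_mem w m L (hpos p hp)).1) fun p hp => (fac_mem w m L (hpos p hp)).2.1
  have e3 : 1 - ∑ p ∈ PS z \ PS y, (k : ℝ) / (p : ℝ) ^ 2 ≤
      ∏ p ∈ PS z \ PS y, (1 - (nuA (bs w m L) (p ^ 2) : ℝ) / (p : ℝ) ^ 2) :=
    one_sub_sum_le _ _ _ (fun p hp => (fac_mem w m L (hpos p hp)).1) (fun p hp => (fac_mem w m L (hpos p hp)).2.1)
      fun p hp => (fac_mem w m L (hpos p hp)).2.2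
  have e4 : ∑ p ∈ PS z \ PS y, (k : ℝ) / (p : ℝ) ^ 2 ≤ k * (2 / ((y : ℝ) + 1)) := by
    have e5 : ∑ p ∈ PS z \ PS y, (k : ℝ) / (p : ℝ) ^ 2 = k * ∑ p ∈ PS z \ PS y, ((p : ℝ) ^ 2)⁻¹ := by
      rw [mul_sum]
      refine sum_congr rfl fun p _ => ?_
      rw [div_eq_mul_inv]
    rw [e5]
    refine mul_le_mul_of_nonneg_left ?_ (Nat.cast_nonneg _)
    have e6 := sum_Ioo_inv_sq_le (α := ℝ) y (z + 1)
    refine le_trans (sum_le_sum_of_subset_of_nonneg ?_ fun _ _ _ => by positivity) e6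
    intro p hp
    rw [Finset.mem_sdiff, PS, PS, mem_filter, mem_filter, mem_Icc, mem_Icc] at hp
    rw [mem_Ioo]
    refine ⟨?_, by omega⟩
    by_contra hcon
    push Not at hcon
    exact hp.2 ⟨⟨hp.1.1.1, hcon⟩, hp.1.2⟩
  have hV := V_nonneg w m L y
  rw [e1]
  constructor
  · refine mul_le_mul_of_nonneg_right ?_ hV
    linarith
  · calc _ ≤ 1 * V w m L y := mul_le_mul_of_nonneg_right e2 hV
      _ = V w m L y := one_mul _

/-- the conditions on the lists of digits -/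
structure Adm {k : ℕ} (r s : ℕ) (w m : Fin k → List ℕ) : Prop where
  len : ∀ i, (w i).length = r
  lenm : ∀ i, (m i).length = 2 * s + 1
  dig : ∀ i, ∀ d ∈ w i, d < 10
  digm : ∀ i, ∀ d ∈ m i, d < 10
  rev : ∀ i, (m i).reverse = m i
  head : ∀ i, (w i).headI ≠ 0
  last : ∀ i, ¬ 4 ∣ (w i).getD 0 0 + 10 * (w i).getD 1 0 ∧ ¬ 25 ∣ (w i).getD 0 0 + 10 * (w i).getD 1 0

theorem palin_good {k : ℕ} {r s : ℕ} (hr : 2 ≤ r) {w m : Fin k → List ℕ} (h : Adm r s w m) {L : ℕ}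
    (u : Fin L → Fin 10) (i : Fin k) : good (palin (w i) (m i) u) := by
  obtain ⟨t, ht⟩ := palin_last (w := w i) (m := m i) (by rw [h.len]; exact hr) u
  rw [ht, good_mod]
  exact h.last i

theorem tuple (k r s : ℕ) (hr : 2 ≤ r) {ε : ℝ} (hε : 0 < ε) : ∃ Y₀ L₀ : ℕ, ∀ L : ℕ, L₀ ≤ L →
    ∀ w m : Fin k → List ℕ, Adm r s w m → ∀ y : ℕ, Y₀ ≤ y →
    |(((univ : Finset (Fin L → Fin 10)).filter (fun u => ∀ i, Squarefree (palin (w i) (m i) u))).card : ℝ) -
      10 ^ L * V w m L y| ≤ ε * 10 ^ L := by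
  classical
  -- the choice of `Y₀`
  obtain ⟨Y, hY⟩ := exists_nat_gt ((k : ℝ) * (20 * 10 ^ (r + s)) * (4 / ε) + (k : ℝ) * 2 * (4 / ε))
  have hYR : (0 : ℝ) < (Y : ℝ) + 1 := by positivity
  have hε4 : (0 : ℝ) < 4 / ε := by positivity
  have hY1 : (k : ℝ) * (20 * 10 ^ (r + s)) / ((Y : ℝ) + 1) ≤ ε / 4 := by
    rw [div_le_iff₀ hYR]
    have : (k : ℝ) * (20 * 10 ^ (r + s)) * (4 / ε) ≤ (Y : ℝ) + 1 := by
      have : 0 ≤ (k : ℝ) * 2 * (4 / ε) := by positivity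
      linarith
    calc (k : ℝ) * (20 * 10 ^ (r + s)) = ε / 4 * ((k : ℝ) * (20 * 10 ^ (r + s)) * (4 / ε)) := by field_simp
      _ ≤ ε / 4 * ((Y : ℝ) + 1) := mul_le_mul_of_nonneg_left this (by positivity)
  have hY2 : (k : ℝ) * (2 / ((Y : ℝ) + 1)) ≤ ε / 4 := by
    rw [mul_div_assoc', div_le_iff₀ hYR]
    have : (k : ℝ) * 2 * (4 / ε) ≤ (Y : ℝ) + 1 := by
      have : 0 ≤ (k : ℝ) * (20 * 10 ^ (r + s)) * (4 / ε) := by positivity
      linarith
    calc (k : ℝ) * 2 = ε / 4 * ((k : ℝ) * 2 * (4 / ε)) := by field_simp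
      _ ≤ ε / 4 * ((Y : ℝ) + 1) := mul_le_mul_of_nonneg_left this (by positivity)
  obtain ⟨L₁, hL₁⟩ := small_count Y (show 0 < ε / 4 by positivity)
  obtain ⟨N₀, hN₀⟩ := (big (Y + 1) (by omega)).exists_forall_of_atTop
  refine ⟨Y, max L₁ N₀, fun L hL w m hwm y hy => ?_⟩
  have hL1 : L₁ ≤ L := le_trans (le_max_left _ _) hL
  have hL2 : N₀ ≤ r + L + s := le_trans (le_trans (le_max_right _ _) hL) (by omega)
  have h1 := hL₁ L hL1 k r s w m hwm.len hwm.lenm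
  have h2 := hN₀ (r + L + s) hL2
  set F := (univ : Finset (Fin L → Fin 10)).filter (fun u => ∀ i, Squarefree (palin (w i) (m i) u)) with hF
  set E := (univ : Finset (Fin L → Fin 10)).filter (fun u => ∀ p ∈ PS Y, ∀ i, ¬ p ^ 2 ∣ palin (w i) (m i) u) with hE
  have hwn : ∀ i, w i ≠ [] := by
    intro i h
    have := hwm.len i
    rw [h] at this
    simp at this
    omega
  -- the squarefree ones
  have h3 : F ⊆ E := by
    intro u hu
    rw [hF, mem_filter] at hu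
    rw [hE, mem_filter]
    refine ⟨mem_univ _, fun p hp i h => ?_⟩
    have h4 := hu.2 i p (by rw [← pow_two]; exact h)
    exact (PS_prime hp).one_lt.ne' (Nat.isUnit_iff.1 h4)
  have h4 : E \ F ⊆ (univ : Finset (Fin k)).biUnion (fun i =>
      (univ : Finset (Fin L → Fin 10)).filter (fun u => palin (w i) (m i) u ∈ bad (Y + 1) (r + L + s))) := by
    intro u hu
    rw [Finset.mem_sdiff, hE, hF, mem_filter, mem_filter] at hu
    obtain ⟨⟨-, hu1⟩, hu2⟩ := hu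
    push Not at hu2
    obtain ⟨i, hi⟩ := hu2 (mem_univ _)
    rw [mem_biUnion]
    refine ⟨i, mem_univ _, ?_⟩
    rw [mem_filter]
    refine ⟨mem_univ _, ?_⟩
    have hmem : palin (w i) (m i) u ∈ pal (r + L + s) := by
      have := palin_mem (hwm.head i) (hwn i) (hwm.dig i) (hwm.digm i) (hwm.rev i) (hwm.lenm i) u
      rwa [hwm.len] at this
    have hg := palin_good hr hwm u i
    rw [bad, mem_filter]
    refine ⟨hmem, hg, ?_⟩
    rw [Nat.squarefree_iff_prime_squarefree] at hi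
    push Not at hi
    obtain ⟨p, hp, hpd⟩ := hi
    rw [← pow_two] at hpd
    refine ⟨p, ?_, hpd⟩
    by_contra hcon
    push Not at hcon
    have hp2 : p ≠ 2 := by
      rintro rfl
      exact hg.1 (by norm_num at hpd; exact hpd)
    have hp5 : p ≠ 5 := by
      rintro rfl
      exact hg.2 (by norm_num at hpd; exact hpd)
    refine hu1 p ?_ i hpd
    rw [PS, mem_filter, mem_Icc]
    exact ⟨⟨hp.one_lt.le, by omega⟩, hp, hp2, hp5⟩
  have h5 : ((E \ F).card : ℝ) ≤ k * (20 * 10 ^ (r + L + s) / ((Y : ℝ) + 1)) := by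
    have h6 : (E \ F).card ≤ ∑ _i : Fin k, (bad (Y + 1) (r + L + s)).card := by
      refine (card_le_card h4).trans (card_biUnion_le.trans (sum_le_sum fun i _ => ?_))
      refine card_le_card_of_injOn (fun u => palin (w i) (m i) u) (fun u hu => ?_) ?_
      · have := mem_coe.1 hu
        rw [mem_filter] at this
        exact this.2
      · intro u _ u' _ h
        exact palin_inj (hwm.head i) (hwn i) (hwm.dig i) (hwm.digm i) h
    rw [sum_const, card_univ, Fintype.card_fin, smul_eq_mul] at h6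
    have h7 : ((E \ F).card : ℝ) ≤ k * ((bad (Y + 1) (r + L + s)).card : ℝ) := by exact_mod_cast h6
    refine h7.trans (mul_le_mul_of_nonneg_left ?_ (Nat.cast_nonneg _))
    push_cast at h2
    exact h2
  have h6 : (E.card : ℝ) = F.card + (E \ F).card := by
    have := card_sdiff_add_card_eq_card h3
    have h7 : ((E \ F).card : ℝ) + F.card = E.card := by exact_mod_cast this
    linarith
  have h7 : (k : ℝ) * (20 * 10 ^ (r + L + s) / ((Y : ℝ) + 1)) ≤ ε / 4 * 10 ^ L := by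
    have e : (k : ℝ) * (20 * 10 ^ (r + L + s) / ((Y : ℝ) + 1)) = (k : ℝ) * (20 * 10 ^ (r + s)) / ((Y : ℝ) + 1) * 10 ^ L := by
      rw [show r + L + s = (r + s) + L by ring, pow_add]
      ring
    rw [e]
    exact mul_le_mul_of_nonneg_right hY1 (by positivity)
  obtain ⟨h8, h9⟩ := V_split w m L hy
  have h10 := V_nonneg w m L Y
  have h11 := V_le_one w m L Y
  have h12 : |V w m L Y - V w m L y| ≤ ε / 4 := by
    rw [abs_le]
    constructor
    · linarith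
    · have : (k : ℝ) * (2 / ((Y : ℝ) + 1)) * V w m L Y ≤ (k : ℝ) * (2 / ((Y : ℝ) + 1)) * 1 :=
        mul_le_mul_of_nonneg_left h11 (by positivity)
      linarith
  have h13 : |(10 : ℝ) ^ L * V w m L Y - 10 ^ L * V w m L y| ≤ ε / 4 * 10 ^ L := by
    rw [← mul_sub, abs_mul, abs_of_pos (by positivity : (0 : ℝ) < 10 ^ L), mul_comm]
    exact mul_le_mul_of_nonneg_right h12 (by positivity)
  have h14 : (0 : ℝ) ≤ (E \ F).card := Nat.cast_nonneg _
  have h15 : (0 : ℝ) < ε * 10 ^ L := by positivity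
  rw [abs_le] at h1 h13 ⊢
  constructor
  · linarith [h1.1, h13.1]
  · linarith [h1.2, h13.2]

end Pool.Agent.Helper94.SR
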