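import Pool.Agent.Helper51.PL.Tup
import Pool.Agent.Helper94.SR.Tuple

/-!
Progressions of palindromes that are products of few different primes.  The first lemmas are copied from helper51's
`TenTermProgressions`.
-/

set_option autoImplicit false

namespace Pool.Agent.Helper94.AP

open Finset Filter Topology
open Pool.Agent.Helper51.PL (palin Outer nu)
open Pool.Agent.Helper94.SR (bad sq_sum_le)

/-- the difference of the progression -/
def diff (a b L : ℕ) : ℕ := 111111 * (10 ^ a + 10 ^ (a + 2 * b + 2 * L + 7))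

/-- the outer digits with the block of six digits `t` -/
def block (w₁ w₂ : List ℕ) (t : ℕ) : List ℕ := w₁ ++ List.replicate 6 t ++ w₂

theorem rep (t : ℕ) : Nat.ofDigits 10 (List.replicate 6 t) = 111111 * t := by
  simp only [List.replicate, Nat.ofDigits_cons, Nat.ofDigits_nil]
  ring

theorem palin_block (w₁ w₂ : List ℕ) (t : ℕ) {L : ℕ} (u : Fin L → Fin 10) (c : ℕ) :
    palin (block w₁ w₂ t) u c = palin (block w₁ w₂ 0) u c + t * diff w₁.length w₂.length L := by
  have h : ∀ s : ℕ, palin (block w₁ w₂ s) u c = Nat.ofDigits 10 w₁ + 10 ^ w₁.length * (111111 * s + 10 ^ 6 *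
      (Nat.ofDigits 10 w₂ + 10 ^ w₂.length * (Nat.ofDigits 10 ((List.ofFn fun i => (u i : ℕ)).reverse ++ [c] ++
        (List.ofFn fun i => (u i : ℕ))) + 10 ^ (2 * L + 1) * (Nat.ofDigits 10 w₂.reverse + 10 ^ w₂.length *
          (111111 * s + 10 ^ 6 * Nat.ofDigits 10 w₁.reverse))))) := by
    intro s
    have e1 : block w₁ w₂ s ++ (List.ofFn fun i => (u i : ℕ)).reverse ++ [c] ++ (List.ofFn fun i => (u i : ℕ)) ++
        (block w₁ w₂ s).reverse = w₁ ++ (List.replicate 6 s ++ (w₂ ++ (((List.ofFn fun i => (u i : ℕ)).reverse ++ [c] ++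
          (List.ofFn fun i => (u i : ℕ))) ++ (w₂.reverse ++ (List.replicate 6 s ++ w₁.reverse))))) := by
      unfold block
      simp only [List.reverse_append, List.reverse_replicate, List.append_assoc]
    unfold palin
    rw [e1, Nat.ofDigits_append (l1 := w₁), Nat.ofDigits_append (l1 := List.replicate 6 s), Nat.ofDigits_append (l1 := w₂),
      Nat.ofDigits_append (l1 := (List.ofFn fun i => (u i : ℕ)).reverse ++ [c] ++ (List.ofFn fun i => (u i : ℕ))),
      Nat.ofDigits_append (l1 := w₂.reverse), Nat.ofDigits_append (l1 := List.replicate 6 s), rep]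
    have e2 : ((List.ofFn fun i => (u i : ℕ)).reverse ++ [c] ++ (List.ofFn fun i => (u i : ℕ))).length = 2 * L + 1 := by
      simp
      omega
    rw [e2, List.length_replicate, List.length_reverse]
  rw [h t, h 0]
  unfold diff
  rw [show w₁.length + 2 * w₂.length + 2 * L + 7 = w₁.length + 6 + w₂.length + (2 * L + 1) + w₂.length by ring]
  simp only [pow_add]
  ring

theorem outer_block {w₁ w₂ : List ℕ} (h1 : Outer w₁) (h2 : ∀ d ∈ w₂, d < 10) {t : ℕ} (ht : t ≤ 9) :
    Outer (block w₁ w₂ t) := by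
  obtain ⟨a1, a2, a3⟩ := h1
  refine ⟨?_, ?_, ?_⟩
  · unfold block
    simp [a1]
  · intro d hd
    unfold block at hd
    rw [List.mem_append, List.mem_append] at hd
    rcases hd with (hd | hd) | hd
    · exact a2 d hd
    · have := (List.mem_replicate.1 hd).2
      omega
    · exact h2 d hd
  · unfold block
    cases w₁ with
    | nil => exact absurd rfl a1
    | cons a l => exact a3

theorem len_block (w₁ w₂ : List ℕ) (t : ℕ) : (block w₁ w₂ t).length = w₁.length + w₂.length + 6 := by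
  unfold block
  simp only [List.length_append, List.length_replicate]
  omega

/-- the ten lists are admissible -/
theorem nu_block (w₁ w₂ : List ℕ) (L : ℕ) {p : ℕ} (hp : p.Prime) (h2 : p ≠ 2) (h5 : p ≠ 5) :
    nu (fun t : Fin 10 => block w₁ w₂ t) L p < p := by
  classical
  unfold nu
  show ((univ : Finset (Fin 10)).image (fun i : Fin 10 => palin (block w₁ w₂ i) (fun _ : Fin L => (0 : Fin 10)) 0 % p)).card < p
  by_cases hd : p ∣ diff w₁.length w₂.length L
  · have h1 : (univ : Finset (Fin 10)).image (fun i : Fin 10 => palin (block w₁ w₂ i) (fun _ : Fin L => (0 : Fin 10)) 0 % p) ⊆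
        {palin (block w₁ w₂ 0) (fun _ : Fin L => (0 : Fin 10)) 0 % p} := by
      intro r hr
      rw [mem_image] at hr
      obtain ⟨i, -, rfl⟩ := hr
      rw [mem_singleton, palin_block w₁ w₂ (i : ℕ)]
      have h3 : ((i : ℕ) * diff w₁.length w₂.length L) ≡ 0 [MOD p] := Nat.modEq_zero_iff_dvd.2 (hd.mul_left _)
      have := h3.add_left (palin (block w₁ w₂ 0) (fun _ : Fin L => (0 : Fin 10)) 0)
      rw [add_zero] at this
      exact this
    have h3 := card_le_card h1
    rw [card_singleton] at h3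
    have := hp.one_lt
    omega
  · have h1 : ((univ : Finset (Fin 10)).image (fun i : Fin 10 => palin (block w₁ w₂ i)
        (fun _ : Fin L => (0 : Fin 10)) 0 % p)).card ≤ 10 := by
      refine card_image_le.trans ?_
      rw [card_univ, Fintype.card_fin]
    have h3 : ¬ p ∣ 111111 := fun h => hd (h.mul_right _)
    have h4 : 10 < p := by
      by_contra hcon
      push Not at hcon
      have := hp.two_le
      interval_cases p
      · exact h2 rfl
      · exact h3 (by norm_num)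
      · exact absurd hp (by norm_num)
      · exact h5 rfl
      · exact absurd hp (by norm_num)
      · exact h3 (by norm_num)
      · exact absurd hp (by norm_num)
      · exact absurd hp (by norm_num)
      · exact absurd hp (by norm_num)
    omega

/-- few prime factors -/
theorem few {K L N n : ℕ} (hn0 : n ≠ 0) (hn : n < 10 ^ (2 * N + 1)) (h : ∀ p : ℕ, p.Prime → p ∣ n → 10 ^ L < p ^ K) :
    n.primeFactorsList.length * L ≤ K * (2 * N + 1) := by
  have h1 : ∀ l : List ℕ, (∀ p ∈ l, 10 ^ L ≤ p ^ K) → (10 ^ L) ^ l.length ≤ l.prod ^ K := by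
    intro l
    induction l with
    | nil => intro _; simp
    | cons a l ih =>
      intro hl
      rw [List.length_cons, List.prod_cons, pow_succ, mul_pow, mul_comm]
      exact Nat.mul_le_mul (hl a (List.mem_cons_self ..)) (ih fun p hp => hl p (List.mem_cons_of_mem _ hp))
  have h2 := h1 n.primeFactorsList (fun p hp => (h p (Nat.prime_of_mem_primeFactorsList hp)
    (Nat.dvd_of_mem_primeFactorsList hp)).le)
  rw [Nat.prod_primeFactorsList hn0] at h2
  have h3 : n ^ K ≤ 10 ^ ((2 * N + 1) * K) := by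
    rw [pow_mul]
    exact Nat.pow_le_pow_left hn.le K
  have h4 : 10 ^ (L * n.primeFactorsList.length) ≤ 10 ^ ((2 * N + 1) * K) := by
    rw [pow_mul]
    exact h2.trans h3
  have h5 := (Nat.pow_le_pow_iff_right (by norm_num : 1 < 10)).1 h4
  calc n.primeFactorsList.length * L = L * n.primeFactorsList.length := mul_comm _ _
    _ ≤ (2 * N + 1) * K := h5
    _ = K * (2 * N + 1) := mul_comm _ _


open Classical in
/-- few palindromes prime to `10` are divisible by a large square -/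
theorem bigA (A : ℕ) : ∀ᶠ N : ℕ in atTop, ∀ W : ℕ, 1 ≤ W → W ≤ 10 ^ (N / 4) →
    ((bad W N).card : ℝ) ≤ 14 * 10 ^ N / W + 2 * (10 ^ N / (N : ℝ) ^ A) := by
  filter_upwards [SQ.tail SQ.pars A, SQ.small_d A, eventually_ge_atTop 100] with N h1 h2 hN W hW hWz
  set z := 10 ^ (N / 4) with hz
  have hzY : z ≤ 10 ^ (N + 1) := Nat.pow_le_pow_right (by norm_num) (by omega)
  have hsub : bad W N ⊆ (Ico W (10 ^ (N + 1))).biUnion
      (fun d => (SQ.pal N).filter (fun n => SQ.good n ∧ d ^ 2 ∣ n)) := by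
    intro n hn
    rw [bad, mem_filter] at hn
    obtain ⟨hn1, hg, d, hd, hdn⟩ := hn
    rw [mem_biUnion]
    refine ⟨d, ?_, by rw [mem_filter]; exact ⟨hn1, hg, hdn⟩⟩
    rw [mem_Ico]
    refine ⟨hd, ?_⟩
    by_contra hcon
    push Not at hcon
    have := SQ.G_zero' (L := N) hcon
    rw [SQ.G, card_eq_zero, filter_eq_empty_iff] at this
    exact this hn1 ⟨hg, hdn⟩
  have hcard : ((bad W N).card : ℝ) ≤ ∑ d ∈ Ico W (10 ^ (N + 1)), (SQ.G N d : ℝ) := by
    have := (card_le_card hsub).trans card_biUnion_le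
    exact_mod_cast this
  refine hcard.trans ?_
  rw [← sum_Ico_consecutive _ hWz hzY]
  have hWR : (1 : ℝ) ≤ W := by exact_mod_cast hW
  have e1 : ∑ d ∈ Ico W z, (SQ.G N d : ℝ) ≤ 10 ^ N / (N : ℝ) ^ A + 14 * 10 ^ N / W := by
    have e2 : ∑ d ∈ Ico W z, (SQ.G N d : ℝ) = ∑ d ∈ (Ico W z).filter (fun d => d.Coprime 10), (SQ.G N d : ℝ) := by
      rw [sum_filter]
      refine sum_congr rfl fun d _ => ?_
      split_ifs with h
      · rfl
      · rw [SQ.G_zero h, Nat.cast_zero]
    rw [e2]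
    have e3 : ∑ d ∈ (Ico W z).filter (fun d => d.Coprime 10), (SQ.G N d : ℝ) ≤
        ∑ d ∈ (Ico W z).filter (fun d => d.Coprime 10), |(SQ.G N d : ℝ) - 68 * 10 ^ (N - 1) / (d : ℝ) ^ 2| +
        ∑ d ∈ (Ico W z).filter (fun d => d.Coprime 10), 68 * 10 ^ (N - 1) / (d : ℝ) ^ 2 := by
      rw [← sum_add_distrib]
      refine sum_le_sum fun d _ => ?_
      have := le_abs_self ((SQ.G N d : ℝ) - 68 * 10 ^ (N - 1) / (d : ℝ) ^ 2)
      linarith
    refine e3.trans (add_le_add ?_ ?_)
    · refine le_trans (sum_le_sum_of_subset_of_nonneg ?_ fun _ _ _ => abs_nonneg _) h2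
      apply filter_subset_filter
      intro d hd
      rw [mem_Ico] at hd ⊢
      exact ⟨by omega, hd.2⟩
    · have e4 : ∑ d ∈ (Ico W z).filter (fun d => d.Coprime 10), (68 * 10 ^ (N - 1) / (d : ℝ) ^ 2) ≤
          ∑ d ∈ Ico W z, (68 * 10 ^ (N - 1) / (d : ℝ) ^ 2) :=
        sum_le_sum_of_subset_of_nonneg (filter_subset _ _) fun _ _ _ => by positivity
      refine e4.trans ?_
      have e5 : ∑ d ∈ Ico W z, (68 * 10 ^ (N - 1) / (d : ℝ) ^ 2 : ℝ) =
          68 * 10 ^ (N - 1) * ∑ d ∈ Ico W z, ((d : ℝ) ^ 2)⁻¹ := by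
        rw [mul_sum]
        refine sum_congr rfl fun d _ => ?_
        rw [div_eq_mul_inv]
      rw [e5]
      have e6 : (10 : ℝ) ^ N = 10 * 10 ^ (N - 1) := by
        rw [← pow_succ']; congr 1; omega
      calc 68 * 10 ^ (N - 1) * ∑ d ∈ Ico W z, ((d : ℝ) ^ 2)⁻¹ ≤ 68 * 10 ^ (N - 1) * (2 / W) :=
            mul_le_mul_of_nonneg_left (sq_sum_le W z hW) (by positivity)
        _ ≤ 14 * 10 ^ N / W := by
            rw [e6, mul_div_assoc', div_le_div_iff_of_pos_right (by linarith)]
            have : (0 : ℝ) < 10 ^ (N - 1) := by positivity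
            linarith
  linarith

theorem good_of_outer {w : List ℕ} (hw : Outer w) {L : ℕ} (u : Fin L → Fin 10) (c : ℕ) : SQ.good (palin w u c) := by
  have h1 : (palin w u c) ≡ w.headI [MOD 10] := by
    obtain ⟨h0, -, -⟩ := hw
    cases w with
    | nil => exact absurd rfl h0
    | cons a l =>
      show Nat.ofDigits 10 (a :: _) ≡ a [MOD 10]
      rw [Nat.ofDigits_cons]
      show (a + 10 * _) % 10 = a % 10
      omega
  have h2 : (palin w u c).Coprime 10 := by
    have h3 : w.headI.gcd 10 = 1 := hw.2.2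
    have := h1.gcd_eq
    rw [Nat.coprime_iff_gcd_eq_one, this, h3]
  constructor
  · intro h
    have h3 : 2 ∣ Nat.gcd (palin w u c) 10 := Nat.dvd_gcd (dvd_trans (by norm_num) h) (by norm_num)
    rw [h2] at h3
    norm_num at h3
  · intro h
    have h3 : 5 ∣ Nat.gcd (palin w u c) 10 := Nat.dvd_gcd (dvd_trans (by norm_num) h) (by norm_num)
    rw [h2] at h3
    norm_num at h3

theorem mem_pal {w : List ℕ} (hw : Outer w) {L : ℕ} (u : Fin L → Fin 10) {c : ℕ} (hc : c < 10) :
    palin w u c ∈ SQ.pal (w.length + L) := by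
  have hd := Pool.Agent.Helper51.PL.palin_digits hw u hc
  have hl : (Nat.digits 10 (palin w u c)).length = 2 * (w.length + L) + 1 := by
    rw [hd]
    simp only [List.length_append, List.length_reverse, List.length_ofFn, List.length_cons, List.length_nil]
    ring
  rw [SQ.pal, mem_filter, mem_range]
  refine ⟨?_, ?_, Pool.Agent.Helper51.PL.palin_reverse hw u hc⟩
  · rw [← hl]
    exact Nat.lt_base_pow_length_digits (by norm_num)
  · have := (Nat.lt_digits_length_iff (b := 10) (by norm_num) (k := 2 * (w.length + L)) (palin w u c)).1 (by rw [hl]; omega)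
    exact this

theorem inj {w : List ℕ} (hw : Outer w) {L : ℕ} {c : ℕ} (hc : c < 10) :
    Function.Injective (fun u : Fin L → Fin 10 => palin w u c) := by
  intro u u' huu
  have e1 := Pool.Agent.Helper51.PL.palin_digits hw u hc
  have e2 := Pool.Agent.Helper51.PL.palin_digits hw u' hc
  simp only at huu
  rw [huu, e2] at e1
  simp only [List.append_assoc] at e1
  have e3 := List.append_cancel_left e1
  have e4 := List.append_inj_left e3 (by simp)
  have e5 := List.reverse_injective e4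
  have e6 := List.ofFn_injective e5
  funext i
  exact (Fin.ext (congrFun e6 i)).symm

theorem ev_small (k r K : ℕ) (hK : 1 ≤ K) {c₀ : ℝ} (hc₀ : 0 < c₀) : ∀ᶠ L : ℕ in atTop,
    (k : ℝ) * (14 * 10 ^ (r + L) / ((10 ^ (L / K) : ℕ) : ℝ) +
      2 * (10 ^ (r + L) / ((r + L : ℕ) : ℝ) ^ (k + 1))) ≤ c₀ / 2 * 10 ^ L / (L : ℝ) ^ k := by
  have h1 : Tendsto (fun m : ℕ => ((m : ℝ) ^ k) * (1 / 10 : ℝ) ^ m) atTop (𝓝 0) :=
    tendsto_pow_const_mul_const_pow_of_abs_lt_one k (by rw [abs_of_pos] <;> norm_num)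
  have h2 : Tendsto (fun L : ℕ => L / K) atTop atTop := Nat.tendsto_div_const_atTop (by omega)
  have h3 := h1.comp h2
  set C : ℝ := (k : ℝ) * 14 * 10 ^ r * (2 * K) ^ k with hC
  have hC0 : 0 ≤ C := by positivity
  have hδ : 0 < c₀ / 4 / (C + 1) := by positivity
  obtain ⟨n0, hn0⟩ := exists_nat_gt ((k : ℝ) * 2 * 10 ^ r * (4 / c₀))
  filter_upwards [h3.eventually (gt_mem_nhds hδ), eventually_ge_atTop (K + n0 + 1)] with L hL hLn
  simp only [Function.comp_apply] at hL
  have hL1 : 1 ≤ L := by omega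
  have hLR : (0 : ℝ) < L := by exact_mod_cast hL1
  set m := L / K with hm
  have hm1 : 1 ≤ m := (Nat.one_le_div_iff (by omega)).2 (by omega)
  have hLm : L ≤ 2 * K * m := by
    have h4 := Nat.div_add_mod L K
    have h5 := Nat.mod_lt L (show 0 < K by omega)
    rw [← hm] at h4
    have h6 : K ≤ K * m := Nat.le_mul_of_pos_right K hm1
    calc L = K * m + L % K := h4.symm
      _ ≤ K * m + K * m := by omega
      _ = 2 * K * m := by ring
  have e1 : (k : ℝ) * (14 * 10 ^ (r + L) / ((10 ^ m : ℕ) : ℝ)) * (L : ℝ) ^ k ≤ c₀ / 4 * 10 ^ L := by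
    have e2 : (L : ℝ) ^ k ≤ (2 * K) ^ k * (m : ℝ) ^ k := by
      rw [← mul_pow]
      refine pow_le_pow_left₀ hLR.le ?_ k
      exact_mod_cast hLm
    calc (k : ℝ) * (14 * 10 ^ (r + L) / ((10 ^ m : ℕ) : ℝ)) * (L : ℝ) ^ k
        ≤ (k : ℝ) * (14 * 10 ^ (r + L) / ((10 ^ m : ℕ) : ℝ)) * ((2 * K) ^ k * (m : ℝ) ^ k) :=
          mul_le_mul_of_nonneg_left e2 (by positivity)
      _ = C * ((m : ℝ) ^ k * (1 / 10 : ℝ) ^ m) * 10 ^ L := by
          rw [hC, pow_add, one_div, inv_pow]
          push_cast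
          field_simp
      _ ≤ C * (c₀ / 4 / (C + 1)) * 10 ^ L := by
          refine mul_le_mul_of_nonneg_right (mul_le_mul_of_nonneg_left hL.le hC0) (by positivity)
      _ ≤ c₀ / 4 * 10 ^ L := by
          refine mul_le_mul_of_nonneg_right ?_ (by positivity)
          rw [mul_div_assoc', div_le_iff₀ (by positivity)]
          nlinarith
  have e3 : (k : ℝ) * (2 * (10 ^ (r + L) / ((r + L : ℕ) : ℝ) ^ (k + 1))) * (L : ℝ) ^ k ≤ c₀ / 4 * 10 ^ L := by
    have e4 : (L : ℝ) ^ (k + 1) ≤ ((r + L : ℕ) : ℝ) ^ (k + 1) := by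
      refine pow_le_pow_left₀ hLR.le ?_ _
      push_cast
      linarith [(Nat.cast_nonneg r : (0 : ℝ) ≤ r)]
    have e5 : (10 : ℝ) ^ (r + L) / ((r + L : ℕ) : ℝ) ^ (k + 1) ≤ 10 ^ (r + L) / (L : ℝ) ^ (k + 1) :=
      div_le_div_of_nonneg_left (by positivity) (by positivity) e4
    calc (k : ℝ) * (2 * (10 ^ (r + L) / ((r + L : ℕ) : ℝ) ^ (k + 1))) * (L : ℝ) ^ k
        ≤ (k : ℝ) * (2 * (10 ^ (r + L) / (L : ℝ) ^ (k + 1))) * (L : ℝ) ^ k := by
          refine mul_le_mul_of_nonneg_right (mul_le_mul_of_nonneg_left ?_ (Nat.cast_nonneg _)) (by positivity)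
          linarith
      _ = ((k : ℝ) * 2 * 10 ^ r) / L * 10 ^ L := by
          rw [pow_add, pow_succ]
          field_simp
      _ ≤ c₀ / 4 * 10 ^ L := by
          refine mul_le_mul_of_nonneg_right ?_ (by positivity)
          rw [div_le_iff₀ hLR]
          have : (k : ℝ) * 2 * 10 ^ r * (4 / c₀) ≤ L := by
            have : (n0 : ℝ) ≤ L := by exact_mod_cast (by omega : n0 ≤ L)
            linarith
          calc (k : ℝ) * 2 * 10 ^ r = c₀ / 4 * ((k : ℝ) * 2 * 10 ^ r * (4 / c₀)) := by field_simp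
            _ ≤ c₀ / 4 * L := mul_le_mul_of_nonneg_left this (by positivity)
  rw [le_div_iff₀ (by positivity)]
  calc (k : ℝ) * (14 * 10 ^ (r + L) / ((10 ^ m : ℕ) : ℝ) + 2 * (10 ^ (r + L) / ((r + L : ℕ) : ℝ) ^ (k + 1))) * (L : ℝ) ^ k
      = (k : ℝ) * (14 * 10 ^ (r + L) / ((10 ^ m : ℕ) : ℝ)) * (L : ℝ) ^ k +
        (k : ℝ) * (2 * (10 ^ (r + L) / ((r + L : ℕ) : ℝ) ^ (k + 1))) * (L : ℝ) ^ k := by ring
    _ ≤ c₀ / 4 * 10 ^ L + c₀ / 4 * 10 ^ L := add_le_add e1 e3
    _ = c₀ / 2 * 10 ^ L := by ring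

open Classical in
/-- **constellations of palindromes that are products of different large primes** -/
theorem distinct (k r : ℕ) (hk : 1 ≤ k) : ∃ K L₀ : ℕ, ∃ c₀ : ℝ, 1 ≤ K ∧ 0 < c₀ ∧ ∀ L : ℕ, L₀ ≤ L →
    ∀ w : Fin k → List ℕ, (∀ i, Outer (w i)) → (∀ i, (w i).length = r) →
    (∀ p : ℕ, p.Prime → p ≠ 2 → p ≠ 5 → nu w L p < p) → ∀ c : ℕ, c < 10 →
    c₀ * (10 : ℝ) ^ L / (L : ℝ) ^ k ≤ (((univ : Finset (Fin L → Fin 10)).filter
      (fun u => ∀ i, Squarefree (palin (w i) u c) ∧ ∀ p : ℕ, p.Prime → p ∣ palin (w i) u c → 10 ^ L < p ^ K)).card : ℝ) := by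
  obtain ⟨K, L₁, c₀, hK, hc₀, h⟩ := Pool.Agent.Helper51.PL.tup_low k hk
  set K' := max K 4 with hK'
  have hev := ev_small k r K' (by omega) hc₀
  have hbig : ∀ᶠ L : ℕ in atTop, ∀ W : ℕ, 1 ≤ W → W ≤ 10 ^ ((r + L) / 4) →
    ((bad W (r + L)).card : ℝ) ≤ 14 * 10 ^ (r + L) / W + 2 * (10 ^ (r + L) / ((r + L : ℕ) : ℝ) ^ (k + 1)) := by
    have ht : Tendsto (fun L : ℕ => r + L) atTop atTop := by
      refine tendsto_atTop_mono (fun L => Nat.le_add_left L r) tendsto_id
    exact ht.eventually (bigA (k + 1))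
  obtain ⟨L₂, hL₂⟩ := (hev.and hbig).exists_forall_of_atTop
  refine ⟨K', max (max L₁ L₂) 1, c₀ / 2, by omega, by positivity, fun L hL w hw hl hnu c hc => ?_⟩
  have hLL1 : L₁ ≤ L := le_trans (le_trans (le_max_left _ _) (le_max_left _ _)) hL
  have hLL2 : L₂ ≤ L := le_trans (le_trans (le_max_right _ _) (le_max_left _ _)) hL
  obtain ⟨i1, i2⟩ := hL₂ L hLL2
  have h1 := h L hLL1 w hw (fun i j => by rw [hl, hl]) hnu c
  set E := (univ : Finset (Fin L → Fin 10)).filter
    (fun u => ∀ i, ∀ p : ℕ, p.Prime → p ∣ palin (w i) u c → 10 ^ L < p ^ K) with hE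
  set F := (univ : Finset (Fin L → Fin 10)).filter
    (fun u => ∀ i, Squarefree (palin (w i) u c) ∧ ∀ p : ℕ, p.Prime → p ∣ palin (w i) u c → 10 ^ L < p ^ K') with hF
  set W := 10 ^ (L / K') with hW
  have hW1 : 1 ≤ W := Nat.one_le_pow _ _ (by norm_num)
  have hWz : W ≤ 10 ^ ((r + L) / 4) := by
    refine Nat.pow_le_pow_right (by norm_num) ?_
    calc L / K' ≤ L / 4 := Nat.div_le_div_left (le_max_right _ _) (by norm_num)
      _ ≤ (r + L) / 4 := Nat.div_le_div_right (by omega)
  have h4 : E ⊆ F ∪ (univ : Finset (Fin k)).biUnion (fun i =>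
      (univ : Finset (Fin L → Fin 10)).filter (fun u => palin (w i) u c ∈ bad W (r + L))) := by
    intro u hu
    rw [hE, mem_filter] at hu
    have hrough : ∀ i, ∀ p : ℕ, p.Prime → p ∣ palin (w i) u c → 10 ^ L < p ^ K' := fun i p hp hd =>
      lt_of_lt_of_le (hu.2 i p hp hd) (Nat.pow_le_pow_right hp.pos (le_max_left _ _))
    by_cases hsf : ∀ i, Squarefree (palin (w i) u c)
    · rw [mem_union]
      left
      rw [hF, mem_filter]
      exact ⟨mem_univ _, fun i => ⟨hsf i, hrough i⟩⟩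
    · rw [mem_union]
      right
      push Not at hsf
      obtain ⟨i, hi⟩ := hsf
      rw [mem_biUnion]
      refine ⟨i, mem_univ _, ?_⟩
      rw [mem_filter]
      refine ⟨mem_univ _, ?_⟩
      have hmem := mem_pal (hw i) u hc
      rw [hl] at hmem
      rw [bad, mem_filter]
      refine ⟨hmem, good_of_outer (hw i) u c, ?_⟩
      rw [Nat.squarefree_iff_prime_squarefree] at hi
      push Not at hi
      obtain ⟨p, hp, hpd⟩ := hi
      rw [← pow_two] at hpd
      refine ⟨p, ?_, hpd⟩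
      by_contra hcon
      push Not at hcon
      have h5 := hrough i p hp (dvd_trans (dvd_pow_self p two_ne_zero) hpd)
      have h6 : p ^ K' ≤ 10 ^ L := by
        calc p ^ K' ≤ (10 ^ (L / K')) ^ K' := Nat.pow_le_pow_left hcon.le _
          _ = 10 ^ (L / K' * K') := by rw [← pow_mul]
          _ ≤ 10 ^ L := Nat.pow_le_pow_right (by norm_num) (Nat.div_mul_le_self _ _)
      omega
  have h5 : (((univ : Finset (Fin k)).biUnion (fun i =>
      (univ : Finset (Fin L → Fin 10)).filter (fun u => palin (w i) u c ∈ bad W (r + L)))).card : ℝ) ≤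
      k * ((bad W (r + L)).card : ℝ) := by
    have h6 : ((univ : Finset (Fin k)).biUnion (fun i =>
      (univ : Finset (Fin L → Fin 10)).filter (fun u => palin (w i) u c ∈ bad W (r + L)))).card ≤
        ∑ _i : Fin k, (bad W (r + L)).card := by
      refine card_biUnion_le.trans (sum_le_sum fun i _ => ?_)
      refine card_le_card_of_injOn (fun u => palin (w i) u c) (fun u hu => ?_) ?_
      · have := mem_coe.1 hu
        rw [mem_filter] at this
        exact this.2
      · intro u _ u' _ h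
        exact inj (hw i) hc h
    rw [sum_const, card_univ, Fintype.card_fin, smul_eq_mul] at h6
    exact_mod_cast h6
  have h6 : (E.card : ℝ) ≤ F.card + k * ((bad W (r + L)).card : ℝ) := by
    have := (card_le_card h4).trans (card_union_le _ _)
    have h7 : (E.card : ℝ) ≤ F.card + (((univ : Finset (Fin k)).biUnion (fun i =>
      (univ : Finset (Fin L → Fin 10)).filter (fun u => palin (w i) u c ∈ bad W (r + L)))).card : ℝ) := by
      exact_mod_cast this
    linarith
  have h7 := mul_le_mul_of_nonneg_left (i2 W hW1 hWz) (Nat.cast_nonneg (α := ℝ) k)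
  have h8 : c₀ / 2 * (10 : ℝ) ^ L / (L : ℝ) ^ k + c₀ / 2 * (10 : ℝ) ^ L / (L : ℝ) ^ k = c₀ * (10 : ℝ) ^ L / (L : ℝ) ^ k := by
    ring
  linarith

/-- the difference of the progressions -/
def dv (N : ℕ) : ℕ := 111111 * (10 + 10 ^ (2 * N - 6))

open Classical in
/-- **ten palindromes in progression that are products of few different large primes** -/
theorem tenDistinct : ∃ K : ℕ, 1 ≤ K ∧ ∃ c : ℝ, 0 < c ∧ ∀ᶠ N : ℕ in atTop, c * 10 ^ N / (N : ℝ) ^ 10 ≤
    (((SQ.pal N).filter (fun n => ∀ t < 10, n + t * dv N ∈ SQ.pal N ∧ Squarefree (n + t * dv N) ∧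
      (n + t * dv N).primeFactorsList.length ≤ K ∧
      ∀ p : ℕ, p.Prime → p ∣ n + t * dv N → 10 ^ N < p ^ K)).card : ℝ) := by
  obtain ⟨K, L₀, c₀, hK, hc₀, h⟩ := distinct 10 7 (by norm_num)
  refine ⟨3 * K, by omega, c₀ / 10 ^ 7, by positivity, ?_⟩
  filter_upwards [eventually_ge_atTop (L₀ + 22)] with N hN
  obtain ⟨L, rfl⟩ : ∃ L, N = L + 7 := ⟨N - 7, by omega⟩
  have hL15 : 15 ≤ L := by omega
  have hout : ∀ t ≤ 9, Outer (block [1] [] t) := fun t ht =>
    outer_block ⟨by simp, by simp, by norm_num⟩ (by simp) ht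
  have hlen : ∀ t, (block [1] [] t).length = 7 := fun t => by rw [len_block]; simp
  have h1 := h L (by omega) (fun t : Fin 10 => block [1] [] t) (fun t => hout t (by have := t.isLt; omega))
    (fun t => hlen t) (fun p hp h2 h5 => nu_block [1] [] L hp h2 h5) 0 (by norm_num)
  have e : diff 1 0 L = dv (L + 7) := by
    unfold diff dv
    have e1 : 1 + 2 * 0 + 2 * L + 7 = 2 * (L + 7) - 6 := by omega
    rw [e1, pow_one]
  have hLR : (0 : ℝ) < L := by exact_mod_cast (by omega : 0 < L)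
  have h2 : c₀ / 10 ^ 7 * 10 ^ (L + 7) / ((L + 7 : ℕ) : ℝ) ^ 10 ≤ c₀ * (10 : ℝ) ^ L / (L : ℝ) ^ 10 := by
    have e2 : c₀ / 10 ^ 7 * (10 : ℝ) ^ (L + 7) = c₀ * 10 ^ L := by
      rw [pow_add]; field_simp
    rw [e2]
    refine div_le_div_of_nonneg_left (by positivity) (by positivity) (pow_le_pow_left₀ hLR.le ?_ 10)
    push_cast
    linarith
  refine (h2.trans h1).trans ?_
  rw [Nat.cast_le]
  refine card_le_card_of_injOn (fun u => palin (block [1] [] 0) u 0) (fun u hu => ?_) ?_
  · have hu' := mem_coe.1 hu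
    rw [mem_filter] at hu'
    have hmem : ∀ t ≤ 9, palin (block [1] [] t) u 0 ∈ SQ.pal (L + 7) := by
      intro t ht
      have := mem_pal (hout t ht) u (show 0 < 10 by norm_num)
      rw [hlen, add_comm] at this
      exact this
    rw [mem_coe, mem_filter]
    refine ⟨hmem 0 (by norm_num), fun t ht => ?_⟩
    have e3 : palin (block [1] [] 0) u 0 + t * dv (L + 7) = palin (block [1] [] t) u 0 := by
      rw [palin_block [1] [] t u 0, ← e]
      rfl
    rw [e3]
    have hm := hmem t (by omega)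
    obtain ⟨hsf, hrough⟩ := hu'.2 ⟨t, ht⟩
    simp only at hsf hrough
    have hm' := hm
    rw [SQ.pal, mem_filter, mem_range] at hm'
    have hne : palin (block [1] [] t) u 0 ≠ 0 := by
      have : 0 < 10 ^ (2 * (L + 7)) := by positivity
      omega
    refine ⟨hm, hsf, ?_, ?_⟩
    · have h5 := few hne hm'.1 hrough
      by_contra hcon
      push Not at hcon
      have h6 : (3 * K + 1) * L ≤ (palin (block [1] [] t) u 0).primeFactorsList.length * L :=
        Nat.mul_le_mul_right _ hcon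
      have h7 : K * (2 * (L + 7) + 1) ≤ K * (3 * L) := Nat.mul_le_mul_left _ (by omega)
      have h8 : (3 * K + 1) * L = K * (3 * L) + L := by ring
      omega
    · intro p hp hd
      have h6 := hrough p hp hd
      calc 10 ^ (L + 7) ≤ (10 ^ L) ^ 3 := by
            rw [← pow_mul]
            exact Nat.pow_le_pow_right (by norm_num) (by omega)
        _ < (p ^ K) ^ 3 := Nat.pow_lt_pow_left h6 (by norm_num)
        _ = p ^ (3 * K) := by rw [← pow_mul, mul_comm]
  · intro u _ u' _ h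
    exact inj (hout 0 (by norm_num)) (by norm_num) h

end Pool.Agent.Helper94.AP
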