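import Mathlib

/-!
Equidistribution of linear forms in digits modulo a fixed number.
-/

set_option autoImplicit false

namespace Pool.Agent.Helper94.SR

open Finset Filter Topology

theorem prod_le {ρ : ℝ} (hρ : 0 ≤ ρ) {f : ℕ → ℝ} (h0 : ∀ j, 0 ≤ f j) (h1 : ∀ j, f j ≤ 1)
    (h : ∀ j, f j ≤ ρ ∨ f (j + 1) ≤ ρ) : ∀ L : ℕ, ∏ j ∈ range L, f j ≤ ρ ^ (L / 2) := by
  have hstep : ∀ n : ℕ, ∏ j ∈ range (2 * n), f j ≤ ρ ^ n := by
    intro n
    induction n with
    | zero => simp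
    | succ n ih =>
      have e : 2 * (n + 1) = 2 * n + 1 + 1 := by ring
      rw [e, prod_range_succ, prod_range_succ, mul_assoc, pow_succ]
      have h2 : f (2 * n) * f (2 * n + 1) ≤ ρ := by
        rcases h (2 * n) with h3 | h3
        · calc f (2 * n) * f (2 * n + 1) ≤ ρ * 1 := mul_le_mul h3 (h1 _) (h0 _) hρ
            _ = ρ := mul_one _
        · calc f (2 * n) * f (2 * n + 1) ≤ 1 * ρ := mul_le_mul (h1 _) h3 (h0 _) zero_le_one
            _ = ρ := one_mul _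
      exact mul_le_mul ih h2 (mul_nonneg (h0 _) (h0 _)) (pow_nonneg hρ n)
  intro L
  rcases Nat.even_or_odd' L with ⟨c, rfl | rfl⟩
  · have : 2 * c / 2 = c := by omega
    rw [this]
    exact hstep c
  · have : (2 * c + 1) / 2 = c := by omega
    rw [this, prod_range_succ]
    calc (∏ j ∈ range (2 * c), f j) * f (2 * c) ≤ ρ ^ c * 1 :=
          mul_le_mul (hstep c) (h1 _) (h0 _) (pow_nonneg hρ c)
      _ = ρ ^ c := mul_one _

variable {Q : ℕ} [NeZero Q]

/-- the digit sum of characters -/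
noncomputable def dsum (t : ZMod Q) : ℂ := ∑ x : Fin 10, ZMod.stdAddChar (((x : ℕ) : ZMod Q) * t)

theorem norm_char (t : ZMod Q) : ‖(ZMod.stdAddChar t : ℂ)‖ = 1 := AddChar.norm_apply _ _

theorem dsum_le (t : ZMod Q) : ‖dsum t‖ ≤ 10 := by
  unfold dsum
  refine (norm_sum_le _ _).trans ?_
  rw [sum_congr rfl fun x _ => norm_char _]
  simp

theorem dsum_lt {t : ZMod Q} (ht : t ≠ 0) : ‖dsum t‖ < 10 := by
  unfold dsum
  rw [Fin.sum_univ_succ, Fin.sum_univ_succ]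
  have h1 : ‖∑ i : Fin 8, (ZMod.stdAddChar (((i.succ.succ : Fin 10) : ℕ) * t : ZMod Q) : ℂ)‖ ≤ 8 := by
    refine (norm_sum_le _ _).trans ?_
    rw [sum_congr rfl fun x _ => norm_char _]
    simp
  have h2 : ‖(ZMod.stdAddChar (((0 : Fin 10) : ℕ) * t : ZMod Q) : ℂ) +
      ZMod.stdAddChar ((((Fin.succ (0 : Fin 9)) : Fin 10) : ℕ) * t : ZMod Q)‖ < 2 := by
    have e0 : ((((0 : Fin 10) : ℕ) : ZMod Q) * t) = 0 := by simp
    have e1 : (((((Fin.succ (0 : Fin 9)) : Fin 10) : ℕ) : ZMod Q) * t) = t := by simp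
    rw [e0, e1, AddChar.map_zero_eq_one]
    have h3 : ‖(1 : ℂ) + ZMod.stdAddChar t‖ ≤ 2 := by
      refine (norm_add_le _ _).trans ?_
      rw [norm_char, norm_one]; norm_num
    refine lt_of_le_of_ne h3 fun h4 => ht ?_
    have h5 : (1 : ℂ) = ZMod.stdAddChar t := by
      refine eq_of_norm_eq_of_norm_add_eq ?_ ?_
      · rw [norm_char, norm_one]
      · rw [h4, norm_char, norm_one]; norm_num
    refine ZMod.injective_stdAddChar ?_
    rw [← h5, AddChar.map_zero_eq_one]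
  rw [← add_assoc]
  refine lt_of_le_of_lt (norm_add_le _ _) ?_
  linarith

theorem exists_rho (Q : ℕ) [NeZero Q] : ∃ ρ : ℝ, 0 ≤ ρ ∧ ρ < 1 ∧ ∀ t : ZMod Q, t ≠ 0 → ‖dsum t‖ ≤ 10 * ρ := by
  classical
  by_cases hS : ((univ : Finset (ZMod Q)).filter (fun t => t ≠ 0)).Nonempty
  · obtain ⟨t0, ht0, hmax⟩ := exists_max_image _ (fun t => ‖dsum t‖) hS
    rw [mem_filter] at ht0
    refine ⟨‖dsum t0‖ / 10, by positivity, ?_, fun t ht => ?_⟩
    · have := dsum_lt ht0.2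
      linarith
    · have := hmax t (by rw [mem_filter]; exact ⟨mem_univ _, ht⟩)
      linarith
  · refine ⟨0, le_refl _, zero_lt_one, fun t ht => ?_⟩
    exact absurd ⟨t, by rw [mem_filter]; exact ⟨mem_univ _, ht⟩⟩ hS

/-- the number of digit strings with a given value of the linear form -/
noncomputable def cnt (L : ℕ) (lam : ℕ → ZMod Q) (a : ZMod Q) : ℕ :=
  ((univ : Finset (Fin L → Fin 10)).filter
    (fun u => ∑ j : Fin L, ((u j : ℕ) : ZMod Q) * lam j = a)).card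

theorem char_sum (L : ℕ) (f : Fin L → ZMod Q) :
    (ZMod.stdAddChar (∑ j, f j) : ℂ) = ∏ j, ZMod.stdAddChar (f j) := by
  classical
  have : ∀ s : Finset (Fin L), (ZMod.stdAddChar (∑ j ∈ s, f j) : ℂ) = ∏ j ∈ s, ZMod.stdAddChar (f j) := by
    intro s
    induction s using Finset.induction_on with
    | empty => simp
    | insert a s ha ih => rw [sum_insert ha, prod_insert ha, AddChar.map_add_eq_mul, ih]
  exact this univ

theorem fourier (L : ℕ) (lam : ℕ → ZMod Q) (a : ZMod Q) :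
    (Q : ℂ) * (cnt L lam a : ℂ) =
      ∑ k : ZMod Q, ZMod.stdAddChar (-(k * a)) * ∏ j : Fin L, dsum (k * lam j) := by
  classical
  have h1 : ∀ k : ZMod Q, ∏ j : Fin L, dsum (k * lam j) =
      ∑ u : Fin L → Fin 10, ZMod.stdAddChar (k * ∑ j : Fin L, ((u j : ℕ) : ZMod Q) * lam j) := by
    intro k
    unfold dsum
    rw [Finset.prod_univ_sum, Fintype.piFinset_univ]
    refine sum_congr rfl fun u _ => ?_
    rw [mul_sum, char_sum]
    refine prod_congr rfl fun j _ => ?_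
    congr 1
    ring
  have h1' : ∀ k : ZMod Q, (ZMod.stdAddChar (-(k * a)) : ℂ) * ∏ j : Fin L, dsum (k * lam j) =
      ∑ u : Fin L → Fin 10, (ZMod.stdAddChar (-(k * a) + ∑ j : Fin L, k * (((u j : ℕ) : ZMod Q) * lam j)) : ℂ) := by
    intro k
    rw [h1, mul_sum]
    refine sum_congr rfl fun u _ => ?_
    rw [← AddChar.map_add_eq_mul, mul_sum]
  rw [sum_congr rfl fun k _ => h1' k, sum_comm]
  have h2 : ∀ u : Fin L → Fin 10, ∑ k : ZMod Q,
      (ZMod.stdAddChar (-(k * a) + ∑ j : Fin L, k * (((u j : ℕ) : ZMod Q) * lam j)) : ℂ) =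
      if ∑ j : Fin L, ((u j : ℕ) : ZMod Q) * lam j = a then (Q : ℂ) else 0 := by
    intro u
    have h3 := AddChar.sum_mulShift (R := ZMod Q) (R' := ℂ) (ψ := ZMod.stdAddChar)
      ((∑ j : Fin L, ((u j : ℕ) : ZMod Q) * lam j) - a) (ZMod.isPrimitive_stdAddChar Q)
    rw [ZMod.card] at h3
    have h4 : ∀ k : ZMod Q, -(k * a) + ∑ j : Fin L, k * (((u j : ℕ) : ZMod Q) * lam j) =
        k * ((∑ j : Fin L, ((u j : ℕ) : ZMod Q) * lam j) - a) := by
      intro k
      rw [← mul_sum]; ring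
    simp_rw [h4]
    rw [h3]
    by_cases h5 : ∑ j : Fin L, ((u j : ℕ) : ZMod Q) * lam j = a
    · rw [if_pos h5, if_pos (by rw [h5, sub_self])]
    · rw [if_neg h5, if_neg (by rwa [sub_eq_zero])]
      simp
  simp_rw [h2]
  rw [← sum_filter, sum_const, nsmul_eq_mul, cnt]
  ring

theorem key {k x z A : ZMod Q} (h2 : IsUnit (2 : ZMod Q)) (hx : x = 10) (hxz : x * z = 1) (hA : IsUnit A)
    (h j : ℕ) (e1 : k * (A * (x ^ j + x ^ (2 * h) * z ^ j)) = 0)
    (e2 : k * (A * (x ^ (j + 1) + x ^ (2 * h) * z ^ (j + 1))) = 0) : k = 0 := by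
  have hxu : IsUnit x := IsUnit.of_mul_eq_one z hxz
  have hz : ∀ j : ℕ, x ^ j * z ^ j = 1 := by
    intro j
    rw [← mul_pow, hxz, one_pow]
  have f : ∀ j : ℕ, k * (A * (x ^ j + x ^ (2 * h) * z ^ j)) = 0 → k * (x ^ (2 * j) + x ^ (2 * h)) = 0 := by
    intro j e
    have e3 : (k * (x ^ (2 * j) + x ^ (2 * h))) * A = 0 := by
      have : (k * (x ^ (2 * j) + x ^ (2 * h))) * A =
          (k * (A * (x ^ j + x ^ (2 * h) * z ^ j))) * x ^ j + k * A * x ^ (2 * h) * (1 - x ^ j * z ^ j) := by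
        ring
      rw [this, e, hz]
      ring
    exact (hA.mul_left_eq_zero).1 e3
  have f1 := f j e1
  have f2 := f (j + 1) e2
  have g1 : (k * 99) * x ^ (2 * j) = 0 := by
    have : (k * 99) * x ^ (2 * j) = k * (x ^ (2 * (j + 1)) + x ^ (2 * h)) -
        k * (x ^ (2 * j) + x ^ (2 * h)) - k * x ^ (2 * j) * (x ^ 2 - 100) := by ring
    rw [this, f1, f2, hx]
    ring
  have g2 : k * 99 = 0 := ((hxu.pow _).mul_left_eq_zero).1 g1
  have g3 : k * x ^ 2 = k := by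
    have : k * x ^ 2 = k * 99 + k + k * (x ^ 2 - 100) := by ring
    rw [this, g2, hx]
    ring
  have g4 : ∀ n : ℕ, k * x ^ (2 * n) = k := by
    intro n
    induction n with
    | zero => simp
    | succ n ih =>
      have : k * x ^ (2 * (n + 1)) = (k * x ^ (2 * n)) * x ^ 2 := by ring
      rw [this, ih, g3]
  have g5 : k * 2 = 0 := by
    have : k * (x ^ (2 * j) + x ^ (2 * h)) = k * x ^ (2 * j) + k * x ^ (2 * h) := by ring
    rw [this, g4, g4] at f1
    rw [← f1]; ring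
  exact (h2.mul_left_eq_zero).1 g5

/-- the coefficients -/
def lam (Q : ℕ) (r h : ℕ) (j : ℕ) : ZMod Q := (10 : ZMod Q) ^ r * ((10 : ZMod Q) ^ j + (10 : ZMod Q) ^ (2 * h) * (10 : ZMod Q)⁻¹ ^ j)

theorem equi (Q : ℕ) [NeZero Q] (hQ : Q.Coprime 10) {ε : ℝ} (hε : 0 < ε) : ∃ L₀ : ℕ, ∀ L : ℕ, L₀ ≤ L →
    ∀ r h : ℕ, ∀ a : ZMod Q, |(Q : ℝ) * (cnt L (lam Q r h) a : ℝ) - 10 ^ L| ≤ ε * 10 ^ L := by
  obtain ⟨ρ, hρ0, hρ1, hρ⟩ := exists_rho Q
  have hlim : Tendsto (fun n : ℕ => (Q : ℝ) * ρ ^ n) atTop (𝓝 ((Q : ℝ) * 0)) :=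
    (tendsto_pow_atTop_nhds_zero_of_lt_one hρ0 hρ1).const_mul _
  rw [mul_zero] at hlim
  obtain ⟨n0, hn0⟩ := (hlim.eventually (gt_mem_nhds hε)).exists_forall_of_atTop
  refine ⟨2 * n0, fun L hL r h a => ?_⟩
  have hc10 : IsUnit (10 : ZMod Q) := by
    have : IsUnit ((10 : ℕ) : ZMod Q) := (ZMod.isUnit_iff_coprime 10 Q).2 hQ.symm
    exact_mod_cast this
  have hc2 : IsUnit (2 : ZMod Q) := by
    have : IsUnit ((2 : ℕ) : ZMod Q) := (ZMod.isUnit_iff_coprime 2 Q).2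
      (Nat.Coprime.coprime_dvd_left (by norm_num) hQ.symm)
    exact_mod_cast this
  have hz : (10 : ZMod Q) * (10 : ZMod Q)⁻¹ = 1 := ZMod.mul_inv_of_unit _ hc10
  have hF := fourier L (lam Q r h) a
  rw [← add_sum_erase univ _ (mem_univ (0 : ZMod Q))] at hF
  have e0 : (ZMod.stdAddChar (-((0 : ZMod Q) * a)) : ℂ) * ∏ j : Fin L, dsum ((0 : ZMod Q) * lam Q r h j) = 10 ^ L := by
    have : dsum (0 : ZMod Q) = 10 := by
      unfold dsum
      simp
    simp [this]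
  rw [e0] at hF
  have hb : ∀ k ∈ (univ : Finset (ZMod Q)).erase 0,
      ‖(ZMod.stdAddChar (-(k * a)) : ℂ) * ∏ j : Fin L, dsum (k * lam Q r h j)‖ ≤ 10 ^ L * ρ ^ (L / 2) := by
    intro k hk
    rw [mem_erase] at hk
    rw [norm_mul, norm_char, one_mul, norm_prod]
    have h1 : ∏ j : Fin L, ‖dsum (k * lam Q r h j)‖ = ∏ j ∈ range L, ‖dsum (k * lam Q r h j)‖ :=
      (prod_range (fun j => ‖dsum (k * lam Q r h j)‖)).symm
    have h2 : ∏ j ∈ range L, ‖dsum (k * lam Q r h j)‖ =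
        10 ^ L * ∏ j ∈ range L, (‖dsum (k * lam Q r h j)‖ / 10) := by
      rw [prod_div_distrib, prod_const, card_range]
      field_simp
    rw [h1, h2]
    refine mul_le_mul_of_nonneg_left ?_ (by positivity)
    refine prod_le hρ0 (fun j => by positivity) (fun j => ?_) (fun j => ?_) L
    · have := dsum_le (k * lam Q r h j)
      linarith
    · by_cases h3 : k * lam Q r h j = 0
      · right
        have h4 : k * lam Q r h (j + 1) ≠ 0 := by
          intro h4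
          exact hk.1 (key hc2 rfl hz (hc10.pow r) h j h3 h4)
        have := hρ _ h4
        linarith
      · left
        have := hρ _ h3
        linarith
  have hsum : ‖∑ k ∈ (univ : Finset (ZMod Q)).erase 0,
      (ZMod.stdAddChar (-(k * a)) : ℂ) * ∏ j : Fin L, dsum (k * lam Q r h j)‖ ≤ Q * (10 ^ L * ρ ^ (L / 2)) := by
    refine (norm_sum_le _ _).trans ((sum_le_sum hb).trans ?_)
    rw [sum_const, nsmul_eq_mul]
    refine mul_le_mul_of_nonneg_right ?_ (by positivity)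
    have : ((univ : Finset (ZMod Q)).erase 0).card ≤ Q := by
      refine (card_erase_le).trans ?_
      rw [card_univ, ZMod.card]
    exact_mod_cast this
  have hn := hn0 (L / 2) (by omega)
  have hfin : ‖(Q : ℂ) * (cnt L (lam Q r h) a : ℂ) - 10 ^ L‖ ≤ ε * 10 ^ L := by
    rw [hF, add_sub_cancel_left]
    refine hsum.trans ?_
    have h5 : (Q : ℝ) * (10 ^ L * ρ ^ (L / 2)) = ((Q : ℝ) * ρ ^ (L / 2)) * 10 ^ L := by ring
    rw [h5]
    exact mul_le_mul_of_nonneg_right hn.le (by positivity)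
  have e6 : ((Q : ℂ) * (cnt L (lam Q r h) a : ℂ) - 10 ^ L) =
      (((Q : ℝ) * (cnt L (lam Q r h) a : ℝ) - 10 ^ L : ℝ) : ℂ) := by
    push_cast; ring
  rw [e6, Complex.norm_real, Real.norm_eq_abs] at hfin
  exact hfin

end Pool.Agent.Helper94.SR
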