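import Pool.Agent.Helper94.SR.Equi
import Pool.Agent.Helper94.SR.Big

/-!
Palindromes with given outer and middle digits.
-/

set_option autoImplicit false

namespace Pool.Agent.Helper94.SR

open Finset Filter Topology Pool.Agent.Helper94.SQ

/-- the list of the digits `w u m u' w'` -/
def lst (w m : List ℕ) {L : ℕ} (u : Fin L → Fin 10) : List ℕ :=
  w ++ List.ofFn (fun i => (u i : ℕ)) ++ m ++ (List.ofFn (fun i => (u i : ℕ))).reverse ++ w.reverse

/-- the number with these digits -/
def palin (w m : List ℕ) {L : ℕ} (u : Fin L → Fin 10) : ℕ := Nat.ofDigits 10 (lst w m u)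

theorem lst_length (w m : List ℕ) {L : ℕ} (u : Fin L → Fin 10) :
    (lst w m u).length = 2 * w.length + 2 * L + m.length := by
  unfold lst
  simp only [List.length_append, List.length_ofFn, List.length_reverse]
  ring

theorem lst_reverse (w : List ℕ) {m : List ℕ} (hm : m.reverse = m) {L : ℕ} (u : Fin L → Fin 10) :
    (lst w m u).reverse = lst w m u := by
  unfold lst
  simp only [List.reverse_append, List.reverse_reverse, hm, List.append_assoc]

theorem lst_lt {w m : List ℕ} (hw : ∀ d ∈ w, d < 10) (hm : ∀ d ∈ m, d < 10) {L : ℕ} (u : Fin L → Fin 10) :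
    ∀ d ∈ lst w m u, d < 10 := by
  intro d hd
  unfold lst at hd
  simp only [List.mem_append, List.mem_reverse, List.mem_ofFn] at hd
  rcases hd with (((h | h) | h) | h) | h
  · exact hw d h
  · obtain ⟨i, rfl⟩ := h; exact (u i).2
  · exact hm d h
  · obtain ⟨i, rfl⟩ := h; exact (u i).2
  · exact hw d h

theorem palin_digits {w m : List ℕ} (hw0 : w.headI ≠ 0) (hwn : w ≠ []) (hw : ∀ d ∈ w, d < 10) (hm : ∀ d ∈ m, d < 10)
    {L : ℕ} (u : Fin L → Fin 10) : Nat.digits 10 (palin w m u) = lst w m u := by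
  unfold palin
  refine Nat.digits_ofDigits 10 (by norm_num) _ (lst_lt hw hm u) fun hne => ?_
  have h1 : (lst w m u).getLast hne = w.reverse.getLast (by simpa using hwn) :=
    List.getLast_append_of_ne_nil hne _
  rw [h1]
  cases w with
  | nil => exact absurd rfl hwn
  | cons a l => simpa using hw0

theorem palin_mem {w m : List ℕ} (hw0 : w.headI ≠ 0) (hwn : w ≠ []) (hw : ∀ d ∈ w, d < 10) (hm : ∀ d ∈ m, d < 10)
    (hmr : m.reverse = m) {s : ℕ} (hms : m.length = 2 * s + 1)
    {L : ℕ} (u : Fin L → Fin 10) : palin w m u ∈ pal (w.length + L + s) := by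
  have hd := palin_digits hw0 hwn hw hm u
  have hl : (Nat.digits 10 (palin w m u)).length = 2 * (w.length + L + s) + 1 := by
    rw [hd, lst_length, hms]; ring
  rw [pal, mem_filter, mem_range]
  refine ⟨?_, ?_, ?_⟩
  · rw [← hl]
    exact Nat.lt_base_pow_length_digits (by norm_num)
  · have h0 : palin w m u ≠ 0 := by
      intro h0
      rw [h0] at hl
      simp at hl
    have h1 := (Nat.digits_length_le_iff (b := 10) (by norm_num) (k := 2 * (w.length + L + s)) (palin w m u)).not
    rw [hl] at h1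
    push Not at h1
    exact h1.1 (by omega)
  · rw [hd]
    exact lst_reverse w hmr u

theorem palin_inj {w m : List ℕ} (hw0 : w.headI ≠ 0) (hwn : w ≠ []) (hw : ∀ d ∈ w, d < 10) (hm : ∀ d ∈ m, d < 10)
    {L : ℕ} : Function.Injective (fun u : Fin L → Fin 10 => palin w m u) := by
  intro u u' h
  have h1 : lst w m u = lst w m u' := by
    rw [← palin_digits hw0 hwn hw hm u, ← palin_digits hw0 hwn hw hm u']
    exact congrArg _ h
  unfold lst at h1
  simp only [List.append_assoc] at h1
  rw [List.append_cancel_left_eq] at h1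
  have h2 := List.append_inj_left h1 (by simp)
  have h3 := List.ofFn_injective h2
  funext i
  exact Fin.ext (congrFun h3 i)

theorem ofDigits_ofFn {L : ℕ} (f : Fin L → ℕ) :
    Nat.ofDigits 10 (List.ofFn f) = ∑ j : Fin L, f j * 10 ^ (j : ℕ) := by
  induction L with
  | zero => simp
  | succ L ih =>
    rw [List.ofFn_succ, Nat.ofDigits_cons, ih, Fin.sum_univ_succ, mul_sum]
    simp only [Fin.val_zero, pow_zero, mul_one, Fin.val_succ]
    congr 1
    refine sum_congr rfl fun j _ => ?_
    ring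

theorem ofDigits_ofFn_rev {L : ℕ} (f : Fin L → ℕ) :
    Nat.ofDigits 10 (List.ofFn f).reverse = ∑ j : Fin L, f j * 10 ^ (L - 1 - (j : ℕ)) := by
  induction L with
  | zero => simp
  | succ L ih =>
    rw [List.ofFn_succ', List.concat_eq_append, List.reverse_append, List.reverse_singleton, List.singleton_append,
      Nat.ofDigits_cons, ih, Fin.sum_univ_castSucc, mul_sum, add_comm]
    simp only [Fin.val_last, Fin.val_castSucc]
    congr 1
    · refine sum_congr rfl fun j _ => ?_
      have := j.2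
      have e : L + 1 - 1 - (j : ℕ) = (L - 1 - (j : ℕ)) + 1 := by omega
      rw [e, pow_succ]
      ring
    · simp

/-- the coefficients of the digits -/
def co (r L t : ℕ) (j : ℕ) : ℕ := 10 ^ (r + j) + 10 ^ (r + 2 * L + t - 1 - j)

theorem palin_val (w m : List ℕ) {L : ℕ} (u : Fin L → Fin 10) (hm : 1 ≤ m.length) :
    palin w m u = palin w m (fun _ : Fin L => (0 : Fin 10)) + ∑ j : Fin L, (u j : ℕ) * co w.length L m.length j := by
  have key : ∀ v : Fin L → Fin 10, palin w m v = Nat.ofDigits 10 w + 10 ^ w.length * (∑ j : Fin L, (v j : ℕ) * 10 ^ (j : ℕ)) +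
      10 ^ (w.length + L) * Nat.ofDigits 10 m +
      10 ^ (w.length + L + m.length) * (∑ j : Fin L, (v j : ℕ) * 10 ^ (L - 1 - (j : ℕ))) +
      10 ^ (w.length + L + m.length + L) * Nat.ofDigits 10 w.reverse := by
    intro v
    unfold palin lst
    rw [Nat.ofDigits_append, Nat.ofDigits_append, Nat.ofDigits_append, Nat.ofDigits_append, ofDigits_ofFn,
      ofDigits_ofFn_rev]
    simp only [List.length_append, List.length_ofFn, List.length_reverse]
  rw [key u, key]
  have e1 : ∑ j : Fin L, (u j : ℕ) * co w.length L m.length j =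
      10 ^ w.length * (∑ j : Fin L, (u j : ℕ) * 10 ^ (j : ℕ)) +
      10 ^ (w.length + L + m.length) * (∑ j : Fin L, (u j : ℕ) * 10 ^ (L - 1 - (j : ℕ))) := by
    rw [mul_sum, mul_sum, ← sum_add_distrib]
    refine sum_congr rfl fun j _ => ?_
    have := j.2
    unfold co
    have e2 : w.length + 2 * L + m.length - 1 - (j : ℕ) = (w.length + L + m.length) + (L - 1 - (j : ℕ)) := by omega
    rw [e2, pow_add, pow_add]
    ring
  rw [e1]
  simp
  ring

/-- the linear form -/
def Mu (r L t : ℕ) (u : Fin L → Fin 10) : ℕ := ∑ j : Fin L, (u j : ℕ) * co r L t j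

theorem Mu_cast {Q : ℕ} [NeZero Q] (hQ : Q.Coprime 10) (r L s : ℕ) (u : Fin L → Fin 10) :
    ((Mu r L (2 * s + 1) u : ℕ) : ZMod Q) = ∑ j : Fin L, ((u j : ℕ) : ZMod Q) * lam Q r (L + s) j := by
  have hc10 : IsUnit (10 : ZMod Q) := by
    have : IsUnit ((10 : ℕ) : ZMod Q) := (ZMod.isUnit_iff_coprime 10 Q).2 hQ.symm
    exact_mod_cast this
  have hz : (10 : ZMod Q) * (10 : ZMod Q)⁻¹ = 1 := ZMod.mul_inv_of_unit _ hc10
  unfold Mu
  push_cast
  refine sum_congr rfl fun j _ => ?_
  congr 1
  have := j.2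
  unfold co lam
  push_cast
  have e1 : r + 2 * L + (2 * s + 1) - 1 - (j : ℕ) = r + (2 * (L + s) - (j : ℕ)) := by omega
  have e2 : (10 : ZMod Q) ^ (2 * (L + s)) * (10 : ZMod Q)⁻¹ ^ (j : ℕ) = 10 ^ (2 * (L + s) - (j : ℕ)) := by
    have e3 : 2 * (L + s) = (2 * (L + s) - (j : ℕ)) + (j : ℕ) := by omega
    conv_lhs => rw [e3]
    rw [pow_add, mul_assoc, ← mul_pow, hz, one_pow, mul_one]
  rw [e1, e2, pow_add, pow_add]
  ring

/-- the last two digits -/
theorem palin_last {w m : List ℕ} (hw : 2 ≤ w.length) {L : ℕ} (u : Fin L → Fin 10) :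
    ∃ t, palin w m u = 100 * t + (w.getD 0 0 + 10 * w.getD 1 0) := by
  match w, hw with
  | a :: b :: l, _ =>
    refine ⟨Nat.ofDigits 10 (l ++ List.ofFn (fun i => (u i : ℕ)) ++ m ++
      (List.ofFn (fun i => (u i : ℕ))).reverse ++ (a :: b :: l).reverse), ?_⟩
    unfold palin lst
    simp only [List.cons_append, Nat.ofDigits_cons, List.getD_cons_zero, List.getD_cons_succ]
    ring

end Pool.Agent.Helper94.SR
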