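import Pool.Agent.Helper94.SR.Tuple

/-!
Runs of consecutive squarefree palindromes.
-/

set_option autoImplicit false

namespace Pool.Agent.Helper94.SR

open Finset Filter Topology Pool.Agent.Helper94.SQ

theorem lower (k r s : ℕ) (hr : 2 ≤ r) : ∃ c : ℝ, 0 < c ∧ ∃ L₀ : ℕ, ∀ L : ℕ, L₀ ≤ L →
    ∀ w m : Fin k → List ℕ, Adm r s w m → (∀ p : ℕ, p.Prime → p ≠ 2 → p ≠ 5 → nuA (bs w m L) (p ^ 2) < p ^ 2) →
    c * 10 ^ L ≤ (((univ : Finset (Fin L → Fin 10)).filter (fun u => ∀ i, Squarefree (palin (w i) (m i) u))).card : ℝ) := by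
  classical
  set Y := 4 * k with hY
  set c₀ : ℝ := (∏ p ∈ PS Y, (1 : ℝ) / (p : ℝ) ^ 2) / 2 with hc₀
  have hc₀' : 0 < c₀ := by
    have : 0 < ∏ p ∈ PS Y, (1 : ℝ) / (p : ℝ) ^ 2 := prod_pos fun p hp => by
      have : (0 : ℝ) < p := by exact_mod_cast (PS_prime hp).pos
      positivity
    positivity
  obtain ⟨Y₀, L₀, h⟩ := tuple k r s hr (show 0 < c₀ / 2 by positivity)
  refine ⟨c₀ / 2, by positivity, L₀, fun L hL w m hwm hnu => ?_⟩
  have h1 := h L hL w m hwm (max Y Y₀) (le_max_right _ _)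
  have h2 := (V_split w m L (le_max_left Y Y₀)).1
  have h3 : ∏ p ∈ PS Y, (1 : ℝ) / (p : ℝ) ^ 2 ≤ V w m L Y := by
    refine prod_le_prod (fun p _ => by positivity) fun p hp => ?_
    have hp0 : (0 : ℝ) < (p : ℝ) ^ 2 := by
      have : (0 : ℝ) < p := by exact_mod_cast (PS_prime hp).pos
      positivity
    obtain ⟨-, hp1, hp2, hp5⟩ := mem_filter.1 hp
    have h4 := hnu p hp1 hp2 hp5
    have h5 : (nuA (bs w m L) (p ^ 2) : ℝ) + 1 ≤ (p : ℝ) ^ 2 := by exact_mod_cast h4
    have e : 1 - (nuA (bs w m L) (p ^ 2) : ℝ) / (p : ℝ) ^ 2 = ((p : ℝ) ^ 2 - nuA (bs w m L) (p ^ 2)) / (p : ℝ) ^ 2 := by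
      rw [sub_div, div_self hp0.ne']
    rw [e, div_le_div_iff_of_pos_right hp0]
    linarith
  have h6 : (1 : ℝ) / 2 ≤ 1 - k * (2 / ((Y : ℝ) + 1)) := by
    have : (k : ℝ) * (2 / ((Y : ℝ) + 1)) ≤ 1 / 2 := by
      rw [mul_div_assoc', div_le_div_iff₀ (by positivity) (by norm_num), hY]
      push_cast
      linarith
    linarith
  have h7 : c₀ ≤ V w m L (max Y Y₀) := by
    refine le_trans ?_ h2
    have h8 := V_nonneg w m L Y
    calc c₀ = 1 / 2 * ∏ p ∈ PS Y, (1 : ℝ) / (p : ℝ) ^ 2 := by rw [hc₀]; ring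
      _ ≤ (1 - k * (2 / ((Y : ℝ) + 1))) * V w m L Y := mul_le_mul h6 h3 (prod_nonneg fun p _ => by positivity) (by linarith)
  rw [abs_le] at h1
  have h9 : c₀ * 10 ^ L ≤ 10 ^ L * V w m L (max Y Y₀) := by
    rw [mul_comm]
    exact mul_le_mul_of_nonneg_left h7 (by positivity)
  linarith [h1.1]

/-! ### the enumeration of the palindromes by their upper halves -/

theorem pal_ext {L x x' : ℕ} (hx : x ∈ pal L) (hx' : x' ∈ pal L) (h : x / 10 ^ L = x' / 10 ^ L) : x = x' := by
  have h1 : x / 10 ^ (2 * L + 1 - L) = x' / 10 ^ (2 * L + 1 - L) := by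
    have e : 2 * L + 1 - L = L + 1 := by omega
    rw [e, pow_succ, ← Nat.div_div_eq_div_mul, ← Nat.div_div_eq_div_mul, h]
  have h2 := low_eq hx hx' h1
  rw [← Nat.div_add_mod x (10 ^ L), ← Nat.div_add_mod x' (10 ^ L), h, h2]

theorem pal_mono {L x x' : ℕ} (hx : x ∈ pal L) (hx' : x' ∈ pal L) : x ≤ x' ↔ x / 10 ^ L ≤ x' / 10 ^ L := by
  constructor
  · intro h
    exact Nat.div_le_div_right h
  · intro h
    rcases Nat.lt_or_ge (x / 10 ^ L) (x' / 10 ^ L) with h1 | h1
    · exact (Nat.lt_of_div_lt_div h1).le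
    · exact (pal_ext hx hx' (le_antisymm h h1)).le

/-- the palindrome with the upper half `t` -/
def Pt (t : ℕ) : ℕ := Nat.ofDigits 10 ((Nat.digits 10 (t / 10)).reverse ++ Nat.digits 10 t)

theorem Pt_spec {L t : ℕ} (h1 : 10 ^ L ≤ t) (h2 : t < 10 ^ (L + 1)) :
    Pt t ∈ pal L ∧ Pt t / 10 ^ L = t ∧ Pt t ≡ t / 10 + t [MOD 9] := by
  have ht : 0 < t := lt_of_lt_of_le (by positivity) h1
  have hd : Nat.digits 10 t = (t % 10) :: Nat.digits 10 (t / 10) := Nat.digits_def' (by norm_num) ht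
  have hl : (Nat.digits 10 t).length = L + 1 := by
    apply le_antisymm
    · exact (Nat.digits_length_le_iff (by norm_num) t).2 h2
    · have := (Nat.lt_digits_length_iff (b := 10) (by norm_num) (k := L) t).2 h1
      exact this
  have hl2 : (Nat.digits 10 (t / 10)).length = L := by
    rw [hd, List.length_cons] at hl
    omega
  set l := (Nat.digits 10 (t / 10)).reverse ++ Nat.digits 10 t with hldef
  have hlt : ∀ d ∈ l, d < 10 := by
    intro d hd'
    rw [hldef, List.mem_append, List.mem_reverse] at hd'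
    rcases hd' with h | h <;> exact Nat.digits_lt_base (by norm_num) h
  have hne : Nat.digits 10 t ≠ [] := by
    intro h; rw [h] at hl; simp at hl
  have hdig : Nat.digits 10 (Pt t) = l := by
    unfold Pt
    refine Nat.digits_ofDigits 10 (by norm_num) _ hlt fun hne' => ?_
    have h1 : l.getLast hne' = (Nat.digits 10 t).getLast hne := List.getLast_append_of_ne_nil hne' _
    rw [h1]
    exact Nat.getLast_digit_ne_zero 10 ht.ne'
  have hll : (Nat.digits 10 (Pt t)).length = 2 * L + 1 := by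
    rw [hdig, hldef, List.length_append, List.length_reverse, hl, hl2]; ring
  have hrev : l.reverse = l := by
    rw [hldef, hd]
    simp
  refine ⟨?_, ?_, ?_⟩
  · rw [pal, mem_filter, mem_range]
    refine ⟨?_, ?_, ?_⟩
    · rw [← hll]
      exact Nat.lt_base_pow_length_digits (by norm_num)
    · have := (Nat.lt_digits_length_iff (b := 10) (by norm_num) (k := 2 * L) (Pt t)).1 (by rw [hll]; omega)
      exact this
    · rw [hdig, hrev]
  · have e : Pt t = Nat.ofDigits 10 (Nat.digits 10 (t / 10)).reverse + 10 ^ L * t := by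
      unfold Pt
      rw [Nat.ofDigits_append, List.length_reverse, hl2, Nat.ofDigits_digits]
    have h3 : Nat.ofDigits 10 (Nat.digits 10 (t / 10)).reverse < 10 ^ L := by
      have := Nat.ofDigits_lt_base_pow_length (b := 10) (l := (Nat.digits 10 (t / 10)).reverse) (by norm_num)
        (fun d hd' => Nat.digits_lt_base (by norm_num) (List.mem_reverse.1 hd'))
      rwa [List.length_reverse, hl2] at this
    rw [e, Nat.add_mul_div_left _ _ (by positivity), Nat.div_eq_of_lt h3, zero_add]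
  · have h9 : ∀ l : List ℕ, Nat.ofDigits 10 l ≡ l.sum [MOD 9] := by
      intro l
      have := Nat.ofDigits_modEq 10 9 l
      simpa [Nat.ofDigits_one] using this
    have h4 : (Nat.digits 10 (t / 10)).sum ≡ t / 10 [MOD 9] := by
      have := h9 (Nat.digits 10 (t / 10))
      rw [Nat.ofDigits_digits] at this
      exact this.symm
    have h5 : (Nat.digits 10 t).sum ≡ t [MOD 9] := by
      have := h9 (Nat.digits 10 t)
      rw [Nat.ofDigits_digits] at this
      exact this.symm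
    unfold Pt
    refine (h9 _).trans ?_
    rw [List.sum_append, List.sum_reverse]
    exact h4.add h5

theorem nine (t : ℕ) : ∃ j, j ≤ 16 ∧ ((t + j) / 10 + (t + j)) % 9 = 0 := by
  have h : ∀ r < 90, ∃ j < 17, ((r + j) / 10 + (r + j)) % 9 = 0 := by decide
  obtain ⟨j, hj, h1⟩ := h (t % 90) (Nat.mod_lt _ (by norm_num))
  refine ⟨j, by omega, ?_⟩
  have h2 : (t + j) / 10 = 9 * (t / 90) + (t % 90 + j) / 10 := by omega
  have h3 : t + j = 90 * (t / 90) + (t % 90 + j) := by omega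
  generalize (t % 90 + j) / 10 = x at *
  generalize t % 90 + j = y at *
  rw [h2, h3]
  omega

/-- the palindromes in an interval -/
def pin (x y : ℕ) : Finset ℕ := (Icc x y).filter (fun n => (Nat.digits 10 n).reverse = Nat.digits 10 n)

theorem pin_mem {L x y n : ℕ} (hx : 10 ^ (2 * L) ≤ x) (hy : y < 10 ^ (2 * L + 1)) (hn : n ∈ pin x y) : n ∈ pal L := by
  rw [pin, mem_filter, mem_Icc] at hn
  rw [pal, mem_filter, mem_range]
  exact ⟨by omega, by omega, hn.2⟩

theorem run_le {L x y : ℕ} (hx : 10 ^ (2 * L) ≤ x) (hy : y < 10 ^ (2 * L + 1))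
    (h : ∀ n ∈ pin x y, Squarefree n) : (pin x y).card ≤ 16 := by
  by_contra hcon
  push Not at hcon
  have hinj : Set.InjOn (fun n => n / 10 ^ L) (pin x y : Set ℕ) := fun n hn n' hn' hnn =>
    pal_ext (pin_mem hx hy (mem_coe.1 hn)) (pin_mem hx hy (mem_coe.1 hn')) hnn
  set T := (pin x y).image (fun n => n / 10 ^ L) with hT
  have hTc : T.card = (pin x y).card := card_image_of_injOn hinj
  have hne : T.Nonempty := card_pos.1 (by omega)
  have h1 : T ⊆ Icc (T.min' hne) (T.max' hne) := fun t ht => mem_Icc.2 ⟨min'_le _ _ ht, le_max' _ _ ht⟩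
  have h2 := card_le_card h1
  rw [Nat.card_Icc] at h2
  obtain ⟨n0, hn0, e0⟩ := mem_image.1 (T.min'_mem hne)
  obtain ⟨n1, hn1, e1⟩ := mem_image.1 (T.max'_mem hne)
  rw [← e0, ← e1] at h2
  obtain ⟨j, hj, h9⟩ := nine (n0 / 10 ^ L)
  have hp0 := pin_mem hx hy hn0
  have hp1 := pin_mem hx hy hn1
  set t := n0 / 10 ^ L + j with ht
  have b1 : 10 ^ L ≤ t := by
    have : 10 ^ L ≤ n0 / 10 ^ L := by
      rw [Nat.le_div_iff_mul_le (by positivity), ← pow_add]
      rw [pal, mem_filter] at hp0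
      rw [← two_mul]
      exact hp0.2.1
    omega
  have b2 : t ≤ n1 / 10 ^ L := by omega
  have b3 : t < 10 ^ (L + 1) := by
    have : n1 / 10 ^ L < 10 ^ (L + 1) := by
      rw [Nat.div_lt_iff_lt_mul (by positivity), ← pow_add]
      rw [pal, mem_filter, mem_range] at hp1
      have e : L + 1 + L = 2 * L + 1 := by ring
      rw [e]
      exact hp1.1
    omega
  obtain ⟨c1, c2, c3⟩ := Pt_spec b1 b3
  have d1 : n0 ≤ Pt t := (pal_mono hp0 c1).2 (by rw [c2]; omega)
  have d2 : Pt t ≤ n1 := (pal_mono c1 hp1).2 (by rw [c2]; exact b2)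
  have d3 : Pt t ∈ pin x y := by
    rw [pin, mem_filter, mem_Icc] at hn0 hn1 ⊢
    rw [pal, mem_filter] at c1
    exact ⟨⟨by omega, by omega⟩, c1.2.2⟩
  have d4 : 9 ∣ Pt t := by
    apply Nat.dvd_of_mod_eq_zero
    rw [c3]
    exact h9
  have d5 := h _ d3 3 (by norm_num; exact d4)
  norm_num at d5

end Pool.Agent.Helper94.SR
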