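import Pool.Agent.Helper94.SR.Run

/-!
Runs of sixteen consecutive squarefree palindromes, and ten-term progressions.
-/

set_option autoImplicit false

namespace Pool.Agent.Helper94.SR

open Finset Filter Topology Pool.Agent.Helper94.SQ

theorem nine_sum (l : List ℕ) : Nat.ofDigits 10 l ≡ l.sum [MOD 9] := by
  have := Nat.ofDigits_modEq 10 9 l
  simpa [Nat.ofDigits_one] using this

theorem prime_cases {p : ℕ} (hp : p.Prime) (h2 : p ≠ 2) (h5 : p ≠ 5) : p = 3 ∨ 49 ≤ p ^ 2 := by
  by_cases h : p < 7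
  · left
    have := hp.two_le
    interval_cases p
    · exact absurd rfl h2
    · rfl
    · exact absurd hp (by norm_num)
    · exact absurd rfl h5
    · exact absurd hp (by norm_num)
  · right
    push Not at h
    calc 49 = 7 ^ 2 := by norm_num
      _ ≤ p ^ 2 := Nat.pow_le_pow_left h 2

/-- the middle digits of the sixteen palindromes -/
def ms (i : Fin 16) : List ℕ := if (i : ℕ) < 8 then [0, i + 2, 0] else [1, i - 8, 1]

theorem adm16 : Adm (k := 16) 2 1 (fun _ => [1, 0]) ms where
  len := fun _ => rfl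
  lenm := fun i => by unfold ms; split_ifs <;> rfl
  dig := fun _ d hd => by simp at hd; omega
  digm := fun i d hd => by
    have := i.2
    unfold ms at hd
    split_ifs at hd with h
    · simp at hd; omega
    · simp at hd; omega
  rev := fun i => by unfold ms; split_ifs <;> rfl
  head := fun _ => by simp
  last := fun _ => by simp

theorem lst_sum (w m : List ℕ) {L : ℕ} : (lst w m (fun _ : Fin L => (0 : Fin 10))).sum = 2 * w.sum + m.sum := by
  unfold lst
  simp only [List.sum_append, List.sum_reverse, List.sum_ofFn]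
  simp
  ring

theorem nu16 (L : ℕ) {p : ℕ} (hp : p.Prime) (h2 : p ≠ 2) (h5 : p ≠ 5) :
    nuA (bs (k := 16) (fun _ => [1, 0]) ms L) (p ^ 2) < p ^ 2 := by
  rcases prime_cases hp h2 h5 with rfl | h
  · have hsub : (univ : Finset (Fin 16)).image (fun i => bs (k := 16) (fun _ => [1, 0]) ms L i % 3 ^ 2) ⊆
        (range 9).erase 3 := by
      intro x hx
      rw [mem_image] at hx
      obtain ⟨i, -, rfl⟩ := hx
      rw [mem_erase, mem_range]
      refine ⟨?_, Nat.mod_lt _ (by norm_num)⟩
      have h1 : bs (k := 16) (fun _ => [1, 0]) ms L i ≡ 2 * 1 + (ms i).sum [MOD 9] := by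
        have := nine_sum (lst [1, 0] (ms i) (fun _ : Fin L => (0 : Fin 10)))
        rw [lst_sum] at this
        simpa [bs, palin] using this
      have e9 : 3 ^ 2 = 9 := by norm_num
      rw [e9, h1]
      have := i.2
      unfold ms
      split_ifs with h
      · simp; omega
      · simp; omega
    unfold nuA
    have := card_le_card hsub
    rw [card_erase_of_mem (by norm_num), card_range] at this
    omega
  · have := nuA_le (bs (k := 16) (fun _ => [1, 0]) ms L) (p ^ 2)
    omega

theorem palin_top {v c : ℕ} (hv : v < 10) {L : ℕ} (u : Fin L → Fin 10) :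
    palin [1, 0] [v, c, v] u / 10 ^ (L + 3) =
      c + 10 * v + 100 * Nat.ofDigits 10 ((List.ofFn fun i => (u i : ℕ)).reverse ++ [0, 1]) := by
  have e : lst [1, 0] [v, c, v] u = ([1, 0] ++ List.ofFn (fun i => (u i : ℕ)) ++ [v]) ++
      (c :: v :: ((List.ofFn fun i => (u i : ℕ)).reverse ++ [0, 1])) := by
    unfold lst
    simp
  unfold palin
  rw [e, Nat.ofDigits_append]
  have hl : ([1, 0] ++ List.ofFn (fun i => (u i : ℕ)) ++ [v]).length = L + 3 := by simp
  have hlt : Nat.ofDigits 10 ([1, 0] ++ List.ofFn (fun i => (u i : ℕ)) ++ [v]) < 10 ^ (L + 3) := by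
    rw [← hl]
    refine Nat.ofDigits_lt_base_pow_length (by norm_num) fun d hd => ?_
    simp only [List.mem_append, List.mem_ofFn] at hd
    rcases hd with (h | ⟨i, rfl⟩) | h
    · simp at h; omega
    · exact (u i).2
    · simp at h; omega
  rw [hl, Nat.add_mul_div_left _ _ (by positivity), Nat.div_eq_of_lt hlt, zero_add, Nat.ofDigits_cons, Nat.ofDigits_cons]
  ring

theorem top16 {L : ℕ} (u : Fin L → Fin 10) (i : Fin 16) : palin [1, 0] (ms i) u / 10 ^ (L + 3) =
    2 + i + 100 * Nat.ofDigits 10 ((List.ofFn fun i => (u i : ℕ)).reverse ++ [0, 1]) := by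
  have := i.2
  unfold ms
  split_ifs with h
  · rw [palin_top (by norm_num)]; ring
  · rw [palin_top (by norm_num)]; omega

theorem run16 {L : ℕ} (u : Fin L → Fin 10) (h : ∀ i, Squarefree (palin [1, 0] (ms i) u)) :
    palin [1, 0] (ms 0) u ∈ pal (L + 3) ∧ ∃ y < 10 ^ (2 * (L + 3) + 1), (pin (palin [1, 0] (ms 0) u) y).card = 16 ∧
      ∀ x ∈ pin (palin [1, 0] (ms 0) u) y, Squarefree x := by
  have hmem : ∀ i, palin [1, 0] (ms i) u ∈ pal (L + 3) := by
    intro i
    have := palin_mem (adm16.head i) (by simp) (adm16.dig i) (adm16.digm i) (adm16.rev i) (adm16.lenm i) u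
    have e : [1, 0].length + L + 1 = L + 3 := by simp; ring
    rwa [e] at this
  have hb : ∀ i, 10 ^ (2 * (L + 3)) ≤ palin [1, 0] (ms i) u ∧ palin [1, 0] (ms i) u < 10 ^ (2 * (L + 3) + 1) ∧
      (Nat.digits 10 (palin [1, 0] (ms i) u)).reverse = Nat.digits 10 (palin [1, 0] (ms i) u) := by
    intro i
    have := hmem i
    rw [pal, mem_filter, mem_range] at this
    exact ⟨this.2.1, this.1, this.2.2⟩
  have hpin : pin (palin [1, 0] (ms 0) u) (palin [1, 0] (ms 15) u) =
      (univ : Finset (Fin 16)).image (fun i => palin [1, 0] (ms i) u) := by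
    ext x
    constructor
    · intro hx
      have hxp := pin_mem (hb 0).1 (hb 15).2.1 hx
      rw [pin, mem_filter, mem_Icc] at hx
      have h1 := (pal_mono (hmem 0) hxp).1 hx.1.1
      have h2 := (pal_mono hxp (hmem 15)).1 hx.1.2
      rw [top16] at h1 h2
      set R := 100 * Nat.ofDigits 10 ((List.ofFn fun i => (u i : ℕ)).reverse ++ [0, 1]) with hR
      have e15 : ((15 : Fin 16) : ℕ) = 15 := rfl
      have e0 : ((0 : Fin 16) : ℕ) = 0 := rfl
      rw [e0] at h1
      rw [e15] at h2
      rw [mem_image]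
      refine ⟨⟨x / 10 ^ (L + 3) - R - 2, by omega⟩, mem_univ _, ?_⟩
      refine pal_ext (hmem _) hxp ?_
      rw [top16, ← hR]
      simp only
      omega
    · intro hx
      rw [mem_image] at hx
      obtain ⟨i, -, rfl⟩ := hx
      rw [pin, mem_filter, mem_Icc]
      refine ⟨⟨(pal_mono (hmem 0) (hmem i)).2 ?_, (pal_mono (hmem i) (hmem 15)).2 ?_⟩, (hb i).2.2⟩
      · rw [top16, top16]
        have e0 : ((0 : Fin 16) : ℕ) = 0 := rfl
        omega
      · rw [top16, top16]
        have e15 : ((15 : Fin 16) : ℕ) = 15 := rfl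
        have := i.2
        omega
  refine ⟨hmem 0, _, (hb 15).2.1, ?_, ?_⟩
  · rw [hpin, card_image_of_injective, card_univ, Fintype.card_fin]
    intro i j hij
    have h1 : palin [1, 0] (ms i) u / 10 ^ (L + 3) = palin [1, 0] (ms j) u / 10 ^ (L + 3) := congrArg (· / 10 ^ (L + 3)) hij
    rw [top16, top16] at h1
    exact Fin.ext (by omega)
  · intro x hx
    rw [hpin, mem_image] at hx
    obtain ⟨i, -, rfl⟩ := hx
    exact h i

theorem sixteen : ∃ c : ℝ, 0 < c ∧ ∀ᶠ L : ℕ in atTop, c * 10 ^ L ≤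
    (((pal L).filter (fun n => ∃ y < 10 ^ (2 * L + 1), (pin n y).card = 16 ∧ ∀ x ∈ pin n y, Squarefree x)).card : ℝ) := by
  classical
  obtain ⟨c, hc, L₀, h⟩ := lower 16 2 1 (le_refl 2)
  refine ⟨c / 1000, by positivity, ?_⟩
  filter_upwards [eventually_ge_atTop (L₀ + 3)] with N hN
  obtain ⟨L, rfl⟩ : ∃ L, N = L + 3 := ⟨N - 3, by omega⟩
  have h1 := h L (by omega) (fun _ => [1, 0]) ms adm16 (fun p hp h2 h5 => nu16 L hp h2 h5)
  have h2 : c / 1000 * 10 ^ (L + 3) = c * 10 ^ L := by ring
  rw [h2]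
  refine h1.trans ?_
  have h3 : ((univ : Finset (Fin L → Fin 10)).filter (fun u => ∀ i, Squarefree (palin [1, 0] (ms i) u))).card ≤
      ((pal (L + 3)).filter (fun n => ∃ y < 10 ^ (2 * (L + 3) + 1), (pin n y).card = 16 ∧ ∀ x ∈ pin n y, Squarefree x)).card := by
    refine card_le_card_of_injOn (fun u => palin [1, 0] (ms 0) u) (fun u hu => ?_) ?_
    · have := mem_coe.1 hu
      rw [mem_filter] at this
      rw [mem_coe, mem_filter]
      exact run16 u this.2
    · intro u _ u' _ h
      exact palin_inj (by simp) (by simp) (adm16.dig 0) (adm16.digm 0) h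
  exact_mod_cast h3

/-! ### progressions -/

/-- the outer digits of the terms -/
def wt (t : Fin 10) : List ℕ := [1, 1, t, t, t]

theorem adm10 : Adm (k := 10) 5 0 wt (fun _ => [0]) where
  len := fun _ => rfl
  lenm := fun _ => rfl
  dig := fun i d hd => by
    have := i.2
    unfold wt at hd
    simp at hd
    omega
  digm := fun _ d hd => by simp at hd; omega
  rev := fun _ => rfl
  head := fun _ => by simp [wt]
  last := fun _ => by simp [wt]

/-- the difference -/
def df (N : ℕ) : ℕ := 111 * (10 ^ 2 + 10 ^ (2 * N - 4))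

theorem palin_df {L : ℕ} (u : Fin L → Fin 10) (t : Fin 10) :
    palin (wt t) [0] u = palin (wt 0) [0] u + t * df (L + 5) := by
  have key : ∀ t : Fin 10, palin (wt t) [0] u = (11 + 100 * (111 * t)) + 10 ^ 5 * (Nat.ofDigits 10 (List.ofFn fun i => (u i : ℕ)) +
      10 ^ L * (0 + 10 * (Nat.ofDigits 10 (List.ofFn fun i => (u i : ℕ)).reverse + 10 ^ L * (111 * t + 11000)))) := by
    intro t
    unfold palin lst wt
    simp only [List.append_assoc, List.cons_append, List.nil_append, Nat.ofDigits_cons, Nat.ofDigits_append,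
      List.length_ofFn, List.length_reverse, List.reverse_cons, List.reverse_nil, Nat.ofDigits_nil]
    ring
  rw [key t, key 0]
  have e : 2 * (L + 5) - 4 = 5 + L + 1 + L := by omega
  unfold df
  rw [e]
  simp only [Fin.val_zero, pow_add]
  ring

theorem nu10 (L : ℕ) {p : ℕ} (hp : p.Prime) (h2 : p ≠ 2) (h5 : p ≠ 5) :
    nuA (bs (k := 10) wt (fun _ => [0]) L) (p ^ 2) < p ^ 2 := by
  rcases prime_cases hp h2 h5 with rfl | h
  · have hsub : (univ : Finset (Fin 10)).image (fun i => bs (k := 10) wt (fun _ => [0]) L i % 3 ^ 2) ⊆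
        (range 9).filter (fun x => x % 3 = 1) := by
      intro x hx
      rw [mem_image] at hx
      obtain ⟨i, -, rfl⟩ := hx
      rw [mem_filter, mem_range]
      refine ⟨Nat.mod_lt _ (by norm_num), ?_⟩
      have h1 : bs (k := 10) wt (fun _ => [0]) L i ≡ 2 * (wt i).sum [MOD 9] := by
        have := nine_sum (lst (wt i) [0] (fun _ : Fin L => (0 : Fin 10)))
        rw [lst_sum] at this
        simpa [bs, palin] using this
      have e9 : 3 ^ 2 = 9 := by norm_num
      rw [e9, h1]
      unfold wt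
      simp
      omega
    unfold nuA
    have := card_le_card hsub
    have e : ((range 9).filter (fun x => x % 3 = 1)).card = 3 := by decide
    omega
  · have := nuA_le (bs (k := 10) wt (fun _ => [0]) L) (p ^ 2)
    omega

theorem ten : ∃ c : ℝ, 0 < c ∧ ∀ᶠ L : ℕ in atTop, c * 10 ^ L ≤
    (((pal L).filter (fun n => ∀ t < 10, n + t * df L ∈ pal L ∧ Squarefree (n + t * df L))).card : ℝ) := by
  classical
  obtain ⟨c, hc, L₀, h⟩ := lower 10 5 0 (by norm_num)
  refine ⟨c / 100000, by positivity, ?_⟩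
  filter_upwards [eventually_ge_atTop (L₀ + 5)] with N hN
  obtain ⟨L, rfl⟩ : ∃ L, N = L + 5 := ⟨N - 5, by omega⟩
  have h1 := h L (by omega) wt (fun _ => [0]) adm10 (fun p hp h2 h5 => nu10 L hp h2 h5)
  have h2 : c / 100000 * 10 ^ (L + 5) = c * 10 ^ L := by ring
  rw [h2]
  refine h1.trans ?_
  have hmem : ∀ (u : Fin L → Fin 10) (i : Fin 10), palin (wt i) [0] u ∈ pal (L + 5) := by
    intro u i
    have := palin_mem (adm10.head i) (by simp [wt]) (adm10.dig i) (adm10.digm i) (adm10.rev i) (adm10.lenm i) u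
    rw [adm10.len] at this
    have e : 5 + L + 0 = L + 5 := by ring
    rwa [e] at this
  have h3 : ((univ : Finset (Fin L → Fin 10)).filter (fun u => ∀ i, Squarefree (palin (wt i) [0] u))).card ≤
      ((pal (L + 5)).filter (fun n => ∀ t < 10, n + t * df (L + 5) ∈ pal (L + 5) ∧ Squarefree (n + t * df (L + 5)))).card := by
    refine card_le_card_of_injOn (fun u => palin (wt 0) [0] u) (fun u hu => ?_) ?_
    · have hu' := mem_coe.1 hu
      rw [mem_filter] at hu'
      rw [mem_coe, mem_filter]
      refine ⟨hmem u 0, fun t ht => ?_⟩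
      have e := palin_df u ⟨t, ht⟩
      simp only at e
      rw [← e]
      exact ⟨hmem u _, hu'.2 _⟩
    · intro u _ u' _ h
      exact palin_inj (adm10.head 0) (by simp [wt]) (adm10.dig 0) (adm10.digm 0) h
  exact_mod_cast h3

end Pool.Agent.Helper94.SR
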